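import Pool.Agent.J6H54.MG.Stm

set_option autoImplicit false

open Filter Topology

namespace Pool.Agent.J6H54.MG

theorem ana_poly (a b : ℝ) (ha : 0 < a) (hab : a < b) :
    ∃ C : ℝ, ∀ n : ℕ, ((n : ℝ) + 3) * a ^ n ≤ C * b ^ n := by
  have hb : 0 < b := ha.trans hab
  have h0 : 0 ≤ a / b := by positivity
  have h1 : a / b < 1 := (div_lt_one hb).2 hab
  have t1 : Tendsto (fun n : ℕ => (n : ℝ) * (a / b) ^ n) atTop (𝓝 0) :=
    tendsto_self_mul_const_pow_of_lt_one h0 h1
  have t2 : Tendsto (fun n : ℕ => (a / b) ^ n) atTop (𝓝 0) :=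
    tendsto_pow_atTop_nhds_zero_of_lt_one h0 h1
  have t3 : Tendsto (fun n : ℕ => (n : ℝ) * (a / b) ^ n + 3 * (a / b) ^ n) atTop (𝓝 (0 + 3 * 0)) :=
    t1.add (t2.const_mul 3)
  obtain ⟨C, hC⟩ := t3.bddAbove_range
  refine ⟨C, fun n => ?_⟩
  have h := hC ⟨n, rfl⟩
  have hbn : 0 < b ^ n := pow_pos hb n
  have : ((n : ℝ) + 3) * (a / b) ^ n ≤ C := by
    have e : ((n : ℝ) + 3) * (a / b) ^ n = (n : ℝ) * (a / b) ^ n + 3 * (a / b) ^ n := by ring
    rw [e]; exact h
  rw [div_pow, mul_div_assoc'] at this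
  rwa [div_le_iff₀ hbn] at this

theorem s_ana : S_ana := by
  intro q h4 hrec μ0 hμ0
  by_contra hcon
  set S : Set ℝ := {μ | 1 < μ ∧ ∃ C : ℝ, ∀ n, (q n : ℝ) ≤ C * μ ^ n} with hSdef
  have hS4 : (4 : ℝ) ∈ S := by
    refine ⟨by norm_num, 16, fun n => ?_⟩
    have h := h4 n
    have h' : (q n : ℝ) ≤ (4 : ℝ) ^ (n + 2) := by exact_mod_cast h
    calc (q n : ℝ) ≤ (4 : ℝ) ^ (n + 2) := h'
      _ = 16 * 4 ^ n := by ring
  have hbdd : BddBelow S := ⟨1, fun x hx => hx.1.le⟩
  have hlb : ∀ x ∈ S, μ0 ≤ x := by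
    intro x hx
    by_contra hlt
    push Not at hlt
    obtain ⟨hx1, C, hC⟩ := hx
    apply hcon
    refine ⟨C, fun n => (hC n).trans ?_⟩
    have hC0 : 0 ≤ C := by
      have h := hC 0
      simp only [pow_zero, mul_one] at h
      exact (Nat.cast_nonneg _).trans h
    exact mul_le_mul_of_nonneg_left (pow_le_pow_left₀ (by linarith) hlt.le n) hC0
  have hL : μ0 ≤ sInf S := le_csInf ⟨4, hS4⟩ hlb
  have hL1 : 1 < sInf S := lt_of_lt_of_le hμ0 hL
  set L := sInf S with hLdef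
  obtain ⟨ν, hν1, hνL⟩ := exists_between hL1
  have hν0 : 0 < ν := by linarith
  set r := Real.sqrt ν with hr
  have hrr : r * r = ν := Real.mul_self_sqrt hν0.le
  have hr1 : 1 < r := by
    rw [hr, Real.lt_sqrt (by norm_num)]
    simpa using hν1
  set z : ℝ := min ((r - 1) / 6) (1 / 2) with hz
  have hz0 : 0 < z := lt_min (by linarith) (by norm_num)
  have hz2 : z ≤ 1 / 2 := min_le_right _ _
  have hz1 : z < 1 := by linarith
  have hz3 : 1 + 3 * z ≤ r := by
    have := min_le_left ((r - 1) / 6) (1 / 2 : ℝ)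
    rw [← hz] at this
    linarith
  have hlz : 0 < Real.log (1 / z) := Real.log_pos (by rw [lt_div_iff₀ hz0]; linarith)
  have hlr : 0 < Real.log r := Real.log_pos hr1
  set ε : ℝ := min (1 / 2) (Real.log r / Real.log (1 / z)) with hε
  have hε0 : 0 < ε := lt_min (by norm_num) (by positivity)
  have hε2 : ε ≤ 1 / 2 := min_le_left _ _
  have hεz : ε * Real.log (1 / z) ≤ Real.log r := by
    have := min_le_right (1 / 2 : ℝ) (Real.log r / Real.log (1 / z))
    rw [← hε] at this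
    rwa [le_div_iff₀ hlz] at this
  have hL0 : 0 < L := by linarith
  have he1 : 0 < 1 - ε := by linarith
  have hLL : L < L ^ (1 / (1 - ε)) := by
    have h := Real.rpow_lt_rpow_of_exponent_lt hL1 (show (1 : ℝ) < 1 / (1 - ε) by
      rw [lt_div_iff₀ he1]; linarith)
    rwa [Real.rpow_one] at h
  obtain ⟨μ, hμS, hμL⟩ := exists_lt_of_csInf_lt ⟨4, hS4⟩ hLL
  obtain ⟨hμ1, C, hC⟩ := hμS
  have hμ0' : 0 < μ := by linarith
  have hμe : μ ^ (1 - ε) < L := by
    have h := Real.rpow_lt_rpow hμ0'.le hμL he1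
    rwa [← Real.rpow_mul hL0.le, one_div_mul_cancel he1.ne', Real.rpow_one] at h
  have hC0 : 0 ≤ C := by
    have h := hC 0
    simp only [pow_zero, mul_one] at h
    exact (Nat.cast_nonneg _).trans h
  obtain ⟨ρ, hρ0, hρL⟩ := exists_between (max_lt hνL hμe)
  have hm0 : 0 < max ν (μ ^ (1 - ε)) := lt_max_of_lt_left hν0
  obtain ⟨C', hC'⟩ := ana_poly _ _ hm0 hρ0
  have hρ1 : 1 < ρ := lt_of_lt_of_le hν1 ((le_max_left _ _).trans hρ0.le)
  have hρS : ρ ∈ S := by
    refine ⟨hρ1, (4 + 2 * C ^ 2 * μ ^ 3) * C', fun n => ?_⟩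
    set m : ℕ := ⌊ε * n⌋₊ with hm
    have hn0 : (0 : ℝ) ≤ n := Nat.cast_nonneg n
    have hm1 : (m : ℝ) ≤ ε * n := Nat.floor_le (by positivity)
    have hm2 : ε * n < m + 1 := Nat.lt_floor_add_one _
    have hmn : m ≤ n := by
      have : (m : ℝ) ≤ n := by nlinarith
      exact_mod_cast this
    have h := hrec m n z hz0 hz1
    rw [if_pos (by omega)] at h
    set M := max ν (μ ^ (1 - ε)) with hM
    -- the first term
    have hzm : 1 / z ^ m ≤ r ^ n := by
      have e1 : 1 / z ^ m = Real.exp (m * Real.log (1 / z)) := by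
        rw [mul_comm, Real.exp_mul, Real.exp_log (by positivity), Real.rpow_natCast]
        simp
      have e2 : r ^ n = Real.exp (n * Real.log r) := by
        rw [mul_comm, Real.exp_mul, Real.exp_log (by positivity), Real.rpow_natCast]
      rw [e1, e2]
      apply Real.exp_le_exp.2
      calc (m : ℝ) * Real.log (1 / z) ≤ ε * n * Real.log (1 / z) :=
            mul_le_mul_of_nonneg_right hm1 hlz.le
        _ = n * (ε * Real.log (1 / z)) := by ring
        _ ≤ n * Real.log r := mul_le_mul_of_nonneg_left hεz hn0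
    have hfirst : 4 * ((n : ℝ) + 1) * (1 + 3 * z) ^ n / z ^ m ≤ 4 * (((n : ℝ) + 3) * M ^ n) := by
      have e1 : (1 + 3 * z) ^ n ≤ r ^ n := pow_le_pow_left₀ (by positivity) hz3 n
      calc 4 * ((n : ℝ) + 1) * (1 + 3 * z) ^ n / z ^ m
          = 4 * ((n : ℝ) + 1) * ((1 + 3 * z) ^ n * (1 / z ^ m)) := by ring
        _ ≤ 4 * ((n : ℝ) + 1) * (r ^ n * r ^ n) := by
            apply mul_le_mul_of_nonneg_left _ (by positivity)
            exact mul_le_mul e1 hzm (by positivity) (by positivity)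
        _ = 4 * ((n : ℝ) + 1) * ν ^ n := by rw [← mul_pow, hrr]
        _ ≤ 4 * ((n : ℝ) + 1) * M ^ n := by
            apply mul_le_mul_of_nonneg_left _ (by positivity)
            exact pow_le_pow_left₀ hν0.le (le_max_left _ _) n
        _ ≤ 4 * (((n : ℝ) + 3) * M ^ n) := by
            have : 0 ≤ M ^ n := pow_nonneg hm0.le n
            nlinarith
    have hsecond : 2 * ∑ i ∈ Finset.range (n + 3 - m), (q i : ℝ) * q (n + 2 - m - i) ≤
        2 * C ^ 2 * μ ^ 3 * (((n : ℝ) + 3) * M ^ n) := by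
      have e1 : ∀ i ∈ Finset.range (n + 3 - m), (q i : ℝ) * q (n + 2 - m - i) ≤
          C ^ 2 * μ ^ (n + 2 - m) := by
        intro i hi
        rw [Finset.mem_range] at hi
        have hpow : μ ^ (n + 2 - m) = μ ^ i * μ ^ (n + 2 - m - i) := by
          rw [← pow_add]
          congr 1
          omega
        calc (q i : ℝ) * q (n + 2 - m - i) ≤ (C * μ ^ i) * (C * μ ^ (n + 2 - m - i)) :=
              mul_le_mul (hC _) (hC _) (Nat.cast_nonneg _) (by positivity)
          _ = C ^ 2 * μ ^ (n + 2 - m) := by rw [hpow]; ring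
      have e2 := Finset.sum_le_sum e1
      rw [Finset.sum_const, Finset.card_range, nsmul_eq_mul] at e2
      have e3 : ((n + 3 - m : ℕ) : ℝ) ≤ (n : ℝ) + 3 := by
        have : (n + 3 - m : ℕ) ≤ n + 3 := Nat.sub_le _ _
        exact_mod_cast this
      have e4 : μ ^ (n + 2 - m) ≤ μ ^ 3 * M ^ n := by
        have hcast : ((n + 2 - m : ℕ) : ℝ) = (n : ℝ) + 2 - m := by
          rw [Nat.cast_sub (by omega)]
          push_cast
          ring
        have h1 : μ ^ (n + 2 - m) = μ ^ (((n : ℝ) + 2 - m)) := by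
          rw [← hcast, Real.rpow_natCast]
        have h2 : μ ^ ((n : ℝ) + 2 - m) ≤ μ ^ ((3 : ℝ) + (1 - ε) * n) := by
          apply Real.rpow_le_rpow_of_exponent_le hμ1.le
          nlinarith
        have h3 : μ ^ ((3 : ℝ) + (1 - ε) * n) = μ ^ 3 * (μ ^ (1 - ε)) ^ n := by
          rw [Real.rpow_add hμ0', Real.rpow_mul hμ0'.le, Real.rpow_natCast]
          congr 1
          exact_mod_cast Real.rpow_natCast μ 3
        rw [h1]
        refine h2.trans ?_
        rw [h3]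
        apply mul_le_mul_of_nonneg_left _ (by positivity)
        exact pow_le_pow_left₀ (by positivity) (le_max_right _ _) n
      have e5 : 0 ≤ C ^ 2 * μ ^ (n + 2 - m) := by positivity
      calc 2 * ∑ i ∈ Finset.range (n + 3 - m), (q i : ℝ) * q (n + 2 - m - i)
          ≤ 2 * (((n + 3 - m : ℕ) : ℝ) * (C ^ 2 * μ ^ (n + 2 - m))) := by linarith
        _ ≤ 2 * (((n : ℝ) + 3) * (C ^ 2 * (μ ^ 3 * M ^ n))) := by
            apply mul_le_mul_of_nonneg_left _ (by norm_num)
            exact mul_le_mul e3 (mul_le_mul_of_nonneg_left e4 (by positivity)) e5 (by positivity)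
        _ = 2 * C ^ 2 * μ ^ 3 * (((n : ℝ) + 3) * M ^ n) := by ring
    calc (q n : ℝ) ≤ 4 * (((n : ℝ) + 3) * M ^ n) + 2 * C ^ 2 * μ ^ 3 * (((n : ℝ) + 3) * M ^ n) := by
          linarith
      _ = (4 + 2 * C ^ 2 * μ ^ 3) * (((n : ℝ) + 3) * M ^ n) := by ring
      _ ≤ (4 + 2 * C ^ 2 * μ ^ 3) * (C' * ρ ^ n) :=
          mul_le_mul_of_nonneg_left (hC' n) (by positivity)
      _ = (4 + 2 * C ^ 2 * μ ^ 3) * C' * ρ ^ n := by ring
  have := csInf_le hbdd hρS
  linarith

end Pool.Agent.J6H54.MG
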