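import Pool.Agent.J6H54.MG.Stm

/-! # Project MG: the contraction -/

set_option autoImplicit false

namespace Pool.Agent.J6H54.MG

variable {X : Type} (Y : Sys X)

theorem dd_one : Y.d * Y.d = 1 := by
  calc Y.d * Y.d = (Y.b * Y.c) * (Y.c * Y.b) := by rw [Y.bc, Y.cb]
    _ = Y.b * (Y.c * Y.c) * Y.b := by group
    _ = 1 := by rw [Y.cc, mul_one, Y.bb]

theorem val_mul (v w : V) : Y.val (v.mul w) = Y.val v * Y.val w := by
  have hbd : Y.b * Y.d = Y.c := by rw [← Y.bc, ← mul_assoc, Y.bb, one_mul]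
  have hdb : Y.d * Y.b = Y.c := by rw [← Y.cb, mul_assoc, Y.bb, mul_one]
  have hcd : Y.c * Y.d = Y.b := by rw [← Y.cb, ← mul_assoc, Y.cc, one_mul]
  have hdc : Y.d * Y.c = Y.b := by rw [← Y.bc, mul_assoc, Y.cc, mul_one]
  cases v <;> cases w <;>
    simp [V.mul, Sys.val, Y.bb, Y.cc, Y.bc, Y.cb, hbd, hdb, hcd, hdc, dd_one Y]

theorem wt_mul (v w : V) : (v.mul w).wt ≤ v.wt + w.wt := by
  cases v <;> cases w <;> simp [V.mul, V.wt]

/-- the growth of the weights -/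
def cst (v : V) : ℕ := (if v.s0 then 2 else 0) + v.s1.wt

theorem val_false (v : V) (y : X) :
    Y.val v (Y.Φ (y, false)) = Y.Φ ((if v.s0 then Y.a else 1) y, false) := by
  cases v <;> simp [Sys.val, V.s0, Y.b0, Y.c0, Y.d0]

theorem val_true (v : V) (y : X) : Y.val v (Y.Φ (y, true)) = Y.Φ (Y.val v.s1 y, true) := by
  cases v <;> simp [Sys.val, V.s1, Y.b1, Y.c1, Y.d1]

/-- the section with the letter of the branch `false` -/
theorem sec0 (v u : V) (L : List V) : ∃ u' L', W u' L' ≤ W u L + (if v.s0 then 2 else 0) ∧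
    (if v.s0 then Y.a else 1) * (Y.val u * Y.ev L) = Y.val u' * Y.ev L' := by
  by_cases h : v.s0 = true
  · refine ⟨V.e, u :: L, ?_, ?_⟩
    · simp only [h, if_true, W, V.wt, List.map_cons, List.sum_cons]
      omega
    · simp only [h, if_true, Sys.val, Sys.ev, List.map_cons, List.prod_cons, one_mul, mul_assoc]
  · refine ⟨u, L, by simp [h], by simp [h]⟩

/-- the section with the letter of the branch `true` -/
theorem sec1 (v u : V) (L : List V) : ∃ u' L', W u' L' ≤ W u L + v.s1.wt ∧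
    Y.val v.s1 * (Y.val u * Y.ev L) = Y.val u' * Y.ev L' := by
  refine ⟨v.s1.mul u, L, ?_, ?_⟩
  · have := wt_mul v.s1 u
    simp only [W]
    omega
  · rw [val_mul, mul_assoc]

theorem contr_step (v u0 u1 : V) (L0 L1 : List V) (p : Bool) (g : Equiv.Perm X)
    (hg : ∀ x, g (Y.Φ (x, false)) = Y.Φ ((Y.val u0 * Y.ev L0) x, p) ∧
      g (Y.Φ (x, true)) = Y.Φ ((Y.val u1 * Y.ev L1) x, !p)) :
    ∃ (u0' u1' : V) (L0' L1' : List V), W u0' L0' + W u1' L1' ≤ W u0 L0 + W u1 L1 + cst v ∧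
      ∀ x, (Y.val v * g) (Y.Φ (x, false)) = Y.Φ ((Y.val u0' * Y.ev L0') x, p) ∧
        (Y.val v * g) (Y.Φ (x, true)) = Y.Φ ((Y.val u1' * Y.ev L1') x, !p) := by
  cases p with
  | false =>
    obtain ⟨u0', L0', hw0, h0⟩ := sec0 Y v u0 L0
    obtain ⟨u1', L1', hw1, h1⟩ := sec1 Y v u1 L1
    refine ⟨u0', u1', L0', L1', by unfold cst; omega, fun x => ⟨?_, ?_⟩⟩
    · rw [Equiv.Perm.mul_apply, (hg x).1, val_false, ← h0]; rfl
    · rw [Equiv.Perm.mul_apply, (hg x).2, Bool.not_false, val_true, ← h1]; rfl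
  | true =>
    obtain ⟨u0', L0', hw0, h0⟩ := sec1 Y v u0 L0
    obtain ⟨u1', L1', hw1, h1⟩ := sec0 Y v u1 L1
    refine ⟨u0', u1', L0', L1', by unfold cst; omega, fun x => ⟨?_, ?_⟩⟩
    · rw [Equiv.Perm.mul_apply, (hg x).1, val_true, ← h0]; rfl
    · rw [Equiv.Perm.mul_apply, (hg x).2, Bool.not_true, val_false, ← h1]; rfl

theorem contr_ev (L : List V) :
    ∃ (p : Bool) (u0 u1 : V) (L0 L1 : List V), W u0 L0 + W u1 L1 + nonb L ≤ W V.e L ∧
      ∀ x, Y.ev L (Y.Φ (x, false)) = Y.Φ ((Y.val u0 * Y.ev L0) x, p) ∧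
        Y.ev L (Y.Φ (x, true)) = Y.Φ ((Y.val u1 * Y.ev L1) x, !p) := by
  induction L with
  | nil =>
    refine ⟨false, V.e, V.e, [], [], by simp [W, V.wt, nonb], fun x => ?_⟩
    simp [Sys.ev, Sys.val]
  | cons v L ih =>
    obtain ⟨p, u0, u1, L0, L1, hW, hL⟩ := ih
    obtain ⟨u0', u1', L0', L1', hW', h⟩ := contr_step Y v u0 u1 L0 L1 p (Y.ev L) hL
    refine ⟨!p, u0', u1', L0', L1', ?_, fun x => ?_⟩
    · have h1 : W V.e (v :: L) = W V.e L + (2 + v.wt) := by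
        simp only [W, V.wt, List.map_cons, List.sum_cons]
        omega
      have h2 : nonb (v :: L) = nonb L + if v = V.b then 0 else 1 := by
        simp only [nonb, List.countP_cons, decide_eq_true_eq, ne_eq]
        by_cases h : v = V.b <;> simp [h]
      have h3 : cst v + (if v = V.b then 0 else 1) ≤ 2 + v.wt := by
        cases v <;> simp [cst, V.s0, V.s1, V.wt]
      rw [h1, h2]
      omega
    · have e : Y.ev (v :: L) = Y.a * (Y.val v * Y.ev L) := by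
        simp only [Sys.ev, List.map_cons, List.prod_cons, mul_assoc]
      rw [e, Equiv.Perm.mul_apply Y.a, Equiv.Perm.mul_apply Y.a, (h x).1, (h x).2, Y.a_eq, Y.a_eq]
      exact ⟨rfl, rfl⟩

theorem s_contr : S_contr := by
  intro X Y u L
  obtain ⟨p, u0, u1, L0, L1, hW, hL⟩ := contr_ev Y L
  obtain ⟨u0', u1', L0', L1', hW', h⟩ := contr_step Y u u0 u1 L0 L1 p (Y.ev L) hL
  refine ⟨p, u0', u1', L0', L1', ?_, h⟩
  have h1 : W u L = W V.e L + u.wt := by
    simp only [W, V.wt]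
    omega
  have h3 : cst u ≤ 2 + u.wt := by
    cases u <;> simp [cst, V.s0, V.s1, V.wt]
  omega

end Pool.Agent.J6H54.MG
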