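import Pool.Agent.J6H54.MG.Stm

/-!
# Counting lists with few letters different from `b`
-/

set_option autoImplicit false

namespace Pool.Agent.J6H54.MG

namespace CountAux

instance : DecidableEq (List V) := inferInstance

/-- the lists of length `k` -/
def lists : ℕ → Finset (List V)
  | 0 => {[]}
  | k + 1 => ((Finset.univ : Finset V) ×ˢ lists k).image fun p => p.1 :: p.2

theorem mem_lists (k : ℕ) (L : List V) : L ∈ lists k ↔ L.length = k := by
  induction k generalizing L with
  | zero => simp [lists]
  | succ k ih =>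
    simp only [lists, Finset.mem_image, Finset.mem_product, Finset.mem_univ, true_and, Prod.exists]
    constructor
    · rintro ⟨v, M, hM, rfl⟩
      simp [(ih M).1 hM]
    · intro h
      cases L with
      | nil => simp at h
      | cons v M => exact ⟨v, M, (ih M).2 (by simpa using h), rfl⟩

theorem sum_univ (f : V → ℝ) : ∑ v : V, f v = f V.e + f V.b + f V.c + f V.d := by
  have : (Finset.univ : Finset V) = {V.e, V.b, V.c, V.d} := rfl
  rw [this, Finset.sum_insert (by simp), Finset.sum_insert (by simp),
    Finset.sum_insert (by simp), Finset.sum_singleton]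
  ring

theorem sum_lists (z : ℝ) (k : ℕ) : ∑ L ∈ lists k, z ^ nonb L = (1 + 3 * z) ^ k := by
  induction k with
  | zero => simp [lists, nonb]
  | succ k ih =>
    rw [lists, Finset.sum_image, Finset.sum_product, sum_univ]
    · have h1 : ∀ v : V, v ≠ V.b → ∑ L ∈ lists k, z ^ nonb (v :: L) = z * (1 + 3 * z) ^ k := by
        intro v hv
        rw [← ih, Finset.mul_sum]
        refine Finset.sum_congr rfl fun L _ => ?_
        rw [nonb, List.countP_cons_of_pos (by simpa using hv), pow_succ]
        simp only [nonb]
        ring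
      have h2 : ∑ L ∈ lists k, z ^ nonb (V.b :: L) = (1 + 3 * z) ^ k := by
        rw [← ih]
        refine Finset.sum_congr rfl fun L _ => ?_
        rw [nonb, List.countP_cons_of_neg (by simp)]
        rfl
      simp only [h2, h1 V.e (by simp), h1 V.c (by simp), h1 V.d (by simp)]
      ring
    · rintro ⟨v, L⟩ _ ⟨v', L'⟩ _ h
      simp only [List.cons.injEq] at h
      exact Prod.ext h.1 h.2

theorem length_le (u : V) (L : List V) : L.length ≤ W u L := by
  unfold W
  induction L with
  | nil => simp
  | cons v L ih =>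
    simp only [List.length_cons, List.map_cons, List.sum_cons]
    omega

/-- all pairs with lists of length at most `n` -/
def pairs (n : ℕ) : Finset (V × List V) :=
  (Finset.univ : Finset V) ×ˢ ((Finset.range (n + 1)).biUnion lists)

theorem sub_pairs (m n : ℕ) :
    {p : V × List V | W p.1 p.2 ≤ n ∧ nonb p.2 < m} ⊆ (pairs n : Set (V × List V)) := by
  rintro ⟨u, L⟩ ⟨h, _⟩
  simp only [pairs, Finset.coe_product, Set.mem_prod, Finset.mem_coe, Finset.mem_univ, true_and,
    Finset.mem_biUnion, Finset.mem_range]
  exact ⟨L.length, by have := length_le u L; simp only at h; omega, (mem_lists _ _).2 rfl⟩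

theorem sum_pairs (n : ℕ) {z : ℝ} (hz : 0 < z) :
    ∑ p ∈ pairs n, z ^ nonb p.2 ≤ 4 * (n + 1) * (1 + 3 * z) ^ n := by
  rw [pairs, Finset.sum_product, sum_univ]
  have h : ∑ L ∈ (Finset.range (n + 1)).biUnion lists, z ^ nonb L ≤ (n + 1) * (1 + 3 * z) ^ n := by
    rw [Finset.sum_biUnion]
    · calc ∑ k ∈ Finset.range (n + 1), ∑ L ∈ lists k, z ^ nonb L
          = ∑ k ∈ Finset.range (n + 1), (1 + 3 * z) ^ k :=
            Finset.sum_congr rfl fun k _ => sum_lists z k
        _ ≤ ∑ _k ∈ Finset.range (n + 1), (1 + 3 * z) ^ n :=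
            Finset.sum_le_sum fun k hk => pow_le_pow_right₀ (by linarith)
              (by have := Finset.mem_range.1 hk; omega)
        _ = (n + 1) * (1 + 3 * z) ^ n := by
            rw [Finset.sum_const, Finset.card_range, nsmul_eq_mul]; push_cast; ring
    · intro i _ j _ hij
      rw [Function.onFun, Finset.disjoint_left]
      intro L hi hj
      exact hij (((mem_lists i L).1 hi).symm.trans ((mem_lists j L).1 hj))
  simp only
  linarith

end CountAux

open CountAux in
theorem s_count : S_count := by
  intro m n
  have hfin : {p : V × List V | W p.1 p.2 ≤ n ∧ nonb p.2 < m}.Finite :=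
    (Finset.finite_toSet _).subset (sub_pairs m n)
  refine ⟨hfin, fun z hz hz1 => ?_⟩
  rw [Set.ncard_eq_toFinset_card _ hfin]
  calc ((hfin.toFinset.card : ℕ) : ℝ) * z ^ m = ∑ _p ∈ hfin.toFinset, z ^ m := by
        rw [Finset.sum_const, nsmul_eq_mul]
    _ ≤ ∑ p ∈ hfin.toFinset, z ^ nonb p.2 := by
        refine Finset.sum_le_sum fun p hp => ?_
        have := (hfin.mem_toFinset.1 hp).2
        exact pow_le_pow_of_le_one hz.le hz1.le this.le
    _ ≤ ∑ p ∈ pairs n, z ^ nonb p.2 := by
        refine Finset.sum_le_sum_of_subset_of_nonneg ?_ fun p _ _ => by positivity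
        intro p hp
        exact Finset.mem_coe.1 (sub_pairs m n (hfin.mem_toFinset.1 hp))
    _ ≤ 4 * (n + 1) * (1 + 3 * z) ^ n := sum_pairs n hz

end Pool.Agent.J6H54.MG
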