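import Pool.Agent.J6H54.MG.Stm

/-!
# The homeomorphisms in the full group of the Thue-Morse subshift
-/

set_option autoImplicit false

open Filter Topology

namespace Pool.Agent.J6H54.MG

/-- `S_full` -/
theorem s_full : S_full := by
  intro Z _ T
  refine ⟨{ carrier := {g | IsFull T g}
            mul_mem' := ?_
            one_mem' := ?_
            inv_mem' := ?_ }, fun g => Iff.rfl⟩
  · rintro g h ⟨n, hn, hg⟩ ⟨m, hm, hh⟩
    refine ⟨fun x => n (h x) + m x, (hn.comp h.continuous).add hm, fun x => ?_⟩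
    rw [zpow_add]
    show g (h x) = (T ^ n (h x)) ((T ^ m x) x)
    rw [hg (h x), hh x]
  · exact ⟨fun _ => 0, continuous_const, fun x => by simp⟩
  · rintro g ⟨n, hn, hg⟩
    refine ⟨fun x => - n (g⁻¹ x), (hn.comp (g⁻¹).continuous).neg, fun x => ?_⟩
    have h1 : g (g⁻¹ x) = x := g.apply_symm_apply x
    have h2 := hg (g⁻¹ x)
    rw [h1] at h2
    rw [zpow_neg]
    show g⁻¹ x = (T ^ n (g⁻¹ x)).symm x
    rw [Homeomorph.eq_symm_apply]
    exact h2.symm

theorem sh_sh (m n : ℤ) (x : ℤ → Bool) : sh m (sh n x) = sh (m + n) x := by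
  funext k
  simp only [sh]
  congr 1
  ring

theorem sh_zero (x : ℤ → Bool) : sh 0 x = x := by
  funext k
  simp [sh]

theorem T_zpow (m : ℤ) : ∀ x : Morse, ((T ^ m) x).1 = sh m x.1 := by
  induction m using Int.induction_on with
  | zero => intro x; simp [sh_zero]
  | succ i ih =>
    intro x
    rw [zpow_add_one]
    show ((T ^ (i : ℤ)) (T x)).1 = _
    rw [ih]
    show sh i (sh 1 x.1) = _
    rw [sh_sh]
  | pred i ih =>
    intro x
    rw [zpow_sub_one]
    show ((T ^ (-(i : ℤ))) (T.symm x)).1 = _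
    rw [ih]
    show sh (-i) (sh (-1) x.1) = _
    rw [sh_sh]
    rfl

theorem cont_of {f : Morse → Morse} {n : Morse → ℤ} (hn : Continuous n)
    (hf : ∀ x, f x = (T ^ n x) x) : Continuous f := by
  rw [continuous_iff_continuousAt]
  intro x
  have h1 : ∀ᶠ y in 𝓝 x, n y = n x := 
    hn.continuousAt.preimage_mem_nhds ((isOpen_discrete ({n x} : Set ℤ)).mem_nhds rfl)
  refine ((T ^ n x).continuous.continuousAt).congr (h1.mono fun y hy => ?_)
  show (T ^ n x) y = f y
  rw [hf y, hy]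

theorem exists_homeo {f : (ℤ → Bool) → (ℤ → Bool)} (hf : ∀ x, InM x → InM (f x))
    (hff : ∀ x, InM x → f (f x) = x) {n : Morse → ℤ} (hn : Continuous n)
    (hfn : ∀ x : Morse, f x.1 = sh (n x) x.1) :
    ∃ g : Morse ≃ₜ Morse, (∀ x, (g x).1 = f x.1) ∧ IsFull T g := by
  have h1 : ∀ x : Morse, (⟨f x.1, hf x.1 x.2⟩ : Morse) = (T ^ n x) x := by
    intro x
    apply Subtype.ext
    rw [T_zpow]
    exact hfn x
  have h2 : Continuous (fun x : Morse => (⟨f x.1, hf x.1 x.2⟩ : Morse)) := cont_of hn h1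
  refine ⟨{ toFun := fun x => ⟨f x.1, hf x.1 x.2⟩
            invFun := fun x => ⟨f x.1, hf x.1 x.2⟩
            left_inv := fun x => Subtype.ext (hff x.1 x.2)
            right_inv := fun x => Subtype.ext (hff x.1 x.2)
            continuous_toFun := h2
            continuous_invFun := h2 }, fun x => rfl, n, hn, h1⟩

theorem cont_coord (G : Bool × Bool × Bool × Bool × Bool × Bool → ℤ) :
    Continuous (fun x : Morse => G (x.1 (-1), x.1 0, x.1 1, x.1 2, x.1 3, x.1 4)) := by
  have h : ∀ i : ℤ, Continuous (fun x : Morse => x.1 i) :=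
    fun i => (continuous_apply i).comp continuous_subtype_val
  exact (continuous_of_discreteTopology (f := G)).comp
    ((h _).prodMk ((h _).prodMk ((h _).prodMk ((h _).prodMk ((h _).prodMk (h _))))))

/-- `S_homeo` -/
theorem s_homeo (h : S_inv) : S_homeo := by
  have ca : Continuous (fun x : Morse => if P x.1 then (1 : ℤ) else -1) :=
    cont_coord (fun q => if (q.2.2.1 == q.2.2.2.1) || (q.2.2.2.2.1 == q.2.2.2.2.2) then 1 else -1)
  have cb : Continuous (fun x : Morse => if P x.1 then (-1 : ℤ) else 1) :=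
    cont_coord (fun q => if (q.2.2.1 == q.2.2.2.1) || (q.2.2.2.2.1 == q.2.2.2.2.2) then -1 else 1)
  have cc : Continuous (fun x : Morse => if lab x.1 then (if P x.1 then (-1 : ℤ) else 1) else 0) :=
    cont_coord (fun q =>
      if (if (q.2.2.1 == q.2.2.2.1) || (q.2.2.2.2.1 == q.2.2.2.2.2) then q.1 == q.2.1
        else q.2.1 == q.2.2.1) then
      (if (q.2.2.1 == q.2.2.2.1) || (q.2.2.2.2.1 == q.2.2.2.2.2) then -1 else 1) else 0)
  have cd : Continuous (fun x : Morse => if lab x.1 then (0 : ℤ) else if P x.1 then -1 else 1) :=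
    cont_coord (fun q =>
      if (if (q.2.2.1 == q.2.2.2.1) || (q.2.2.2.2.1 == q.2.2.2.2.2) then q.1 == q.2.1
        else q.2.1 == q.2.2.1) then 0 else
      (if (q.2.2.1 == q.2.2.2.1) || (q.2.2.2.2.1 == q.2.2.2.2.2) then -1 else 1))
  have hb : ∀ x : Morse, fb x.1 = sh (if P x.1 then (-1 : ℤ) else 1) x.1 := by
    intro x
    unfold fb
    split_ifs <;> rfl
  obtain ⟨a, ha1, ha2⟩ := exists_homeo (f := fa) (fun x hx => (h x hx).1.1)
    (fun x hx => (h x hx).2.1) ca (fun x => by unfold fa; split_ifs <;> rfl)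
  obtain ⟨b, hb1, hb2⟩ := exists_homeo (f := fb) (fun x hx => (h x hx).1.2.1)
    (fun x hx => (h x hx).2.2.1) cb hb
  obtain ⟨c, hc1, hc2⟩ := exists_homeo (f := fc) (fun x hx => (h x hx).1.2.2.1)
    (fun x hx => (h x hx).2.2.2.1) cc (fun x => by
      unfold fc
      by_cases hl : lab x.1 = true
      · rw [if_pos hl, if_pos hl, hb x]
      · rw [if_neg hl, if_neg hl, sh_zero])
  obtain ⟨d, hd1, hd2⟩ := exists_homeo (f := fd) (fun x hx => (h x hx).1.2.2.2)
    (fun x hx => (h x hx).2.2.2.2.1) cd (fun x => by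
      unfold fd
      by_cases hl : lab x.1 = true
      · rw [if_pos hl, if_pos hl, sh_zero]
      · rw [if_neg hl, if_neg hl, hb x])
  exact ⟨a, b, c, d, fun x => ⟨ha1 x, hb1 x, hc1 x, hd1 x⟩, ha2, hb2, hc2, hd2⟩

end Pool.Agent.J6H54.MG
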