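import Pool.Agent.J6H54.MG.Stm

/-!
# The homomorphism `pr` and the branching subgroup
-/

set_option autoImplicit false

namespace Pool.Agent.J6H54.MG

theorem s_pr : S_pr := by
  intro X Y
  have h1 : ∀ (g h : Equiv.Perm X) (x : X), Y.pr g h (Y.Φ (x, false)) = Y.Φ (g x, false) ∧
      Y.pr g h (Y.Φ (x, true)) = Y.Φ (h x, true) := by
    intro g h x
    constructor
    · simp [Sys.pr, Equiv.permCongr_apply]
    · simp [Sys.pr, Equiv.permCongr_apply]
  refine ⟨h1, ?_, ?_⟩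
  · intro g g' h h'
    ext y
    obtain ⟨⟨x, j⟩, rfl⟩ := Y.Φ.surjective y
    rw [Equiv.Perm.mul_apply]
    cases j
    · rw [(h1 _ _ _).1, (h1 _ _ _).1, (h1 _ _ _).1, Equiv.Perm.mul_apply]
    · rw [(h1 _ _ _).2, (h1 _ _ _).2, (h1 _ _ _).2, Equiv.Perm.mul_apply]
  · intro g h hgh
    constructor
    · ext x
      have h2 := (h1 g h x).1
      rw [hgh, Equiv.Perm.one_apply] at h2
      have h3 := Y.Φ.injective h2
      exact (congrArg Prod.fst h3).symm
    · ext x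
      have h2 := (h1 g h x).2
      rw [hgh, Equiv.Perm.one_apply] at h2
      have h3 := Y.Φ.injective h2
      exact (congrArg Prod.fst h3).symm

/-- the computation in the quotient -/
theorem abs_comm {G : Type} [Group G] {a b c d : G} (ha : a * a = 1) (hb : b * b = 1)
    (hc : c * c = 1) (hbc : b * c = d) (hcb : c * b = d) (hac : (a * c) * (a * c) = 1)
    (had : (a * d) ^ 4 = 1) :
    (a * b) ^ 4 = 1 ∧ b * (a * d * a) * b * (a * d * a) = 1 := by
  have cac : Commute a c := by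
    have h1 : a * c * a * c = 1 := by rw [← hac]; group
    have h2 : a * c * a = c := by
      have := congrArg (· * c) h1
      simp only [mul_assoc, hc, mul_one, one_mul] at this
      simpa [mul_assoc] using this
    have h3 : a * c = c * a := by
      have := congrArg (· * a) h2
      simp only [mul_assoc, ha, mul_one] at this
      exact this
    exact h3
  have cbc : Commute b c := hbc.trans hcb.symm
  have cabc : Commute (a * b) c := cac.mul_left cbc
  have hc4 : c ^ 4 = 1 := by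
    have : c ^ 4 = (c * c) * (c * c) := by
      simp only [pow_succ, pow_zero, one_mul, mul_assoc]
    rw [this, hc, one_mul]
  have h4 : (a * b) ^ 4 = 1 := by
    rw [← hbc, ← mul_assoc, cabc.mul_pow, hc4, mul_one] at had
    exact had
  refine ⟨h4, ?_⟩
  have e1 : a * d * a = a * b * a * c := by
    rw [← hbc]
    calc a * (b * c) * a = a * b * (c * a) := by group
      _ = a * b * (a * c) := by rw [cac.eq]
      _ = a * b * a * c := by group
  have cba : Commute (b * a) c := cbc.mul_left cac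
  have e2 : b * (a * b * a * c) * b * (a * b * a * c) =
      ((b * a) ^ 2 * c) * ((b * a) ^ 2 * c) := by
    simp only [pow_succ, pow_zero, one_mul, mul_assoc]
  have e3 : ((b * a) ^ 2 * c) * ((b * a) ^ 2 * c) = (b * a) ^ 4 := by
    have h5 : Commute ((b * a) ^ 2) c := cba.pow_left 2
    calc ((b * a) ^ 2 * c) * ((b * a) ^ 2 * c) = (b * a) ^ 2 * (c * (b * a) ^ 2) * c := by
          simp only [mul_assoc]
      _ = (b * a) ^ 2 * ((b * a) ^ 2 * c) * c := by rw [h5.eq]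
      _ = (b * a) ^ 4 * (c * c) := by simp only [pow_succ, pow_zero, one_mul, mul_assoc]
      _ = (b * a) ^ 4 := by rw [hc, mul_one]
  have e4 : (b * a) ^ 4 = b * (a * b) ^ 4 * b⁻¹ := by
    rw [eq_mul_inv_iff_mul_eq]
    simp only [pow_succ, pow_zero, one_mul, mul_assoc]
  rw [e1, e2, e3, e4, h4, mul_one, mul_inv_cancel]

namespace Sys
variable {X : Type} (Y : Sys X)

theorem pr_false (g h : Equiv.Perm X) (x : X) :
    Y.pr g h (Y.Φ (x, false)) = Y.Φ (g x, false) := ((s_pr Y).1 g h x).1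

theorem pr_true (g h : Equiv.Perm X) (x : X) :
    Y.pr g h (Y.Φ (x, true)) = Y.Φ (h x, true) := ((s_pr Y).1 g h x).2

theorem pr_mul (g g' h h' : Equiv.Perm X) : Y.pr (g * g') (h * h') = Y.pr g h * Y.pr g' h' :=
  (s_pr Y).2.1 g g' h h'

theorem perm_ext {g h : Equiv.Perm X} (h0 : ∀ x, g (Y.Φ (x, false)) = h (Y.Φ (x, false)))
    (h1 : ∀ x, g (Y.Φ (x, true)) = h (Y.Φ (x, true))) : g = h := by
  ext y
  obtain ⟨⟨x, j⟩, rfl⟩ := Y.Φ.surjective y
  cases j
  · exact h0 x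
  · exact h1 x

theorem pr_one : Y.pr 1 1 = 1 := by
  refine Y.perm_ext (fun x => ?_) (fun x => ?_)
  · rw [pr_false]; rfl
  · rw [pr_true]; rfl

theorem pr_inv (g h : Equiv.Perm X) : Y.pr g⁻¹ h⁻¹ = (Y.pr g h)⁻¹ := by
  rw [eq_inv_iff_mul_eq_one, ← pr_mul, inv_mul_cancel, inv_mul_cancel, pr_one]

theorem a_a : Y.a * Y.a = 1 := by
  refine Y.perm_ext (fun x => ?_) (fun x => ?_)
  · rw [Equiv.Perm.mul_apply, Y.a_eq, Y.a_eq]; rfl
  · rw [Equiv.Perm.mul_apply, Y.a_eq, Y.a_eq]; rfl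

theorem b_eq : Y.b = Y.pr Y.a Y.b := by
  refine Y.perm_ext (fun x => ?_) (fun x => ?_)
  · rw [pr_false, Y.b0]
  · rw [pr_true, Y.b1]

theorem c_eq : Y.c = Y.pr Y.a Y.d := by
  refine Y.perm_ext (fun x => ?_) (fun x => ?_)
  · rw [pr_false, Y.c0]
  · rw [pr_true, Y.c1]

theorem d_eq : Y.d = Y.pr 1 Y.c := by
  refine Y.perm_ext (fun x => ?_) (fun x => ?_)
  · rw [pr_false, Y.d0]; rfl
  · rw [pr_true, Y.d1]

theorem a_pr_a (g h : Equiv.Perm X) : Y.a * Y.pr g h * Y.a = Y.pr h g := by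
  refine Y.perm_ext (fun x => ?_) (fun x => ?_)
  · rw [Equiv.Perm.mul_apply, Equiv.Perm.mul_apply, Y.a_eq, pr_false, Bool.not_false, pr_true,
      Y.a_eq, Bool.not_true]
  · rw [Equiv.Perm.mul_apply, Equiv.Perm.mul_apply, Y.a_eq, pr_true, Bool.not_true, pr_false,
      Y.a_eq, Bool.not_false]

theorem a_mem : Y.a ∈ Subgroup.closure Y.gen := Subgroup.subset_closure (by simp [gen])
theorem b_mem : Y.b ∈ Subgroup.closure Y.gen := Subgroup.subset_closure (by simp [gen])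
theorem c_mem : Y.c ∈ Subgroup.closure Y.gen := Subgroup.subset_closure (by simp [gen])
theorem d_mem : Y.d ∈ Subgroup.closure Y.gen := Subgroup.subset_closure (by simp [gen])

/-- every element of the group is the section on `false` of an element which preserves the
branches -/
theorem exists_pr {h : Equiv.Perm X} (hh : h ∈ Subgroup.closure Y.gen) :
    ∃ h', Y.pr h h' ∈ Subgroup.closure Y.gen := by
  induction hh using Subgroup.closure_induction with
  | mem x hx =>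
    have ha := Y.a_mem
    simp only [gen, Set.mem_insert_iff, Set.mem_singleton_iff] at hx
    rcases hx with rfl | rfl | rfl | rfl
    · exact ⟨Y.b, by rw [← b_eq]; exact Y.b_mem⟩
    · refine ⟨Y.a, ?_⟩
      rw [← a_pr_a, ← b_eq]
      exact mul_mem (mul_mem ha Y.b_mem) ha
    · refine ⟨1, ?_⟩
      rw [← a_pr_a, ← d_eq]
      exact mul_mem (mul_mem ha Y.d_mem) ha
    · refine ⟨Y.a, ?_⟩
      rw [← a_pr_a, ← c_eq]
      exact mul_mem (mul_mem ha Y.c_mem) ha
  | one => exact ⟨1, by rw [pr_one]; exact one_mem _⟩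
  | mul x y _ _ hx hy =>
    obtain ⟨x', hx'⟩ := hx
    obtain ⟨y', hy'⟩ := hy
    exact ⟨x' * y', by rw [pr_mul]; exact mul_mem hx' hy'⟩
  | inv x _ hx =>
    obtain ⟨x', hx'⟩ := hx
    exact ⟨x'⁻¹, by rw [pr_inv]; exact inv_mem hx'⟩

theorem dd : Y.d * Y.d = 1 := by
  have : Y.d * Y.d = Y.b * (Y.c * Y.c) * Y.b := by
    calc Y.d * Y.d = (Y.b * Y.c) * (Y.c * Y.b) := by rw [Y.bc, Y.cb]
      _ = Y.b * (Y.c * Y.c) * Y.b := by group
  rw [this, Y.cc, mul_one, Y.bb]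

theorem ad_four : (Y.a * Y.d) ^ 4 = 1 := by
  have h1 : (Y.a * Y.d) ^ 2 = Y.pr Y.c Y.c := by
    calc (Y.a * Y.d) ^ 2 = (Y.a * Y.d * Y.a) * Y.d := by
          simp only [pow_succ, pow_zero, one_mul, mul_assoc]
      _ = Y.pr Y.c 1 * Y.pr 1 Y.c := by rw [d_eq, a_pr_a]
      _ = Y.pr Y.c Y.c := by rw [← pr_mul, mul_one, one_mul]
  calc (Y.a * Y.d) ^ 4 = (Y.a * Y.d) ^ 2 * (Y.a * Y.d) ^ 2 := by rw [← pow_add]
    _ = 1 := by rw [h1, ← pr_mul, Y.cc, pr_one]

/-- even powers of `a b` -/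
theorem ab_even (m : ℕ) : (Y.a * Y.b) ^ (2 * m) =
    Y.pr ((Y.b * Y.a) ^ m) ((Y.a * Y.b) ^ m) := by
  induction m with
  | zero => simp [pr_one]
  | succ m ih =>
    have h1 : (Y.a * Y.b) ^ 2 = Y.pr (Y.b * Y.a) (Y.a * Y.b) := by
      calc (Y.a * Y.b) ^ 2 = (Y.a * Y.b * Y.a) * Y.b := by
            simp only [pow_succ, pow_zero, one_mul, mul_assoc]
        _ = Y.pr Y.b Y.a * Y.pr Y.a Y.b := by
          conv_lhs => rw [b_eq, a_pr_a]
        _ = Y.pr (Y.b * Y.a) (Y.a * Y.b) := by rw [← pr_mul]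
    rw [show 2 * (m + 1) = 2 * m + 2 by ring, pow_add, ih, h1, ← pr_mul, pow_succ, pow_succ]

theorem ab_order [Nonempty X] (n : ℕ) : (Y.a * Y.b) ^ n = 1 → n = 0 := by
  induction n using Nat.strong_induction_on with
  | _ n ih =>
    intro h
    rcases Nat.even_or_odd' n with ⟨m, hm | hm⟩
    · rw [hm, ab_even] at h
      have h2 := ((s_pr Y).2.2 _ _ h).2
      rcases Nat.eq_zero_or_pos m with h0 | h0
      · omega
      · have := ih m (by omega) h2
        omega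
    · exfalso
      obtain ⟨x⟩ := ‹Nonempty X›
      rw [hm, pow_succ, ab_even] at h
      have h2 : (Y.pr ((Y.b * Y.a) ^ m) ((Y.a * Y.b) ^ m) * (Y.a * Y.b)) (Y.Φ (x, false)) =
          Y.Φ (x, false) := by rw [h]; rfl
      rw [Equiv.Perm.mul_apply, Equiv.Perm.mul_apply, Y.b0, Y.a_eq, Bool.not_false, pr_true] at h2
      have h3 := congrArg Prod.snd (Y.Φ.injective h2)
      exact Bool.noConfusion h3

/-- `(a c) ^ 2` as an element of the group -/
def tt : Subgroup.closure Y.gen :=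
  ⟨(Y.a * Y.c) * (Y.a * Y.c), mul_mem (mul_mem Y.a_mem Y.c_mem) (mul_mem Y.a_mem Y.c_mem)⟩

/-- the branching subgroup -/
def K : Subgroup (Equiv.Perm X) :=
  (Subgroup.normalClosure {Y.tt}).map (Subgroup.closure Y.gen).subtype

theorem K_le : Y.K ≤ Subgroup.closure Y.gen := by
  rintro _ ⟨x, _, rfl⟩
  exact x.2

theorem K_conj {h g : Equiv.Perm X} (hh : h ∈ Subgroup.closure Y.gen) (hg : g ∈ Y.K) :
    h * g * h⁻¹ ∈ Y.K := by
  obtain ⟨x, hx, rfl⟩ := hg
  refine ⟨⟨h, hh⟩ * x * ⟨h, hh⟩⁻¹, ?_, rfl⟩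
  exact Subgroup.normalClosure_normal.conj_mem x hx ⟨h, hh⟩

theorem K_quot : (Y.a * Y.b) ^ 4 ∈ Y.K ∧
    Y.b * (Y.a * Y.d * Y.a) * Y.b * (Y.a * Y.d * Y.a) ∈ Y.K := by
  let a' : Subgroup.closure Y.gen := ⟨Y.a, Y.a_mem⟩
  let b' : Subgroup.closure Y.gen := ⟨Y.b, Y.b_mem⟩
  let c' : Subgroup.closure Y.gen := ⟨Y.c, Y.c_mem⟩
  let d' : Subgroup.closure Y.gen := ⟨Y.d, Y.d_mem⟩
  let N : Subgroup (Subgroup.closure Y.gen) := Subgroup.normalClosure {Y.tt}
  let π : Subgroup.closure Y.gen →* (Subgroup.closure Y.gen) ⧸ N := QuotientGroup.mk' N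
  have ra : a' * a' = 1 := Subtype.ext Y.a_a
  have rb : b' * b' = 1 := Subtype.ext Y.bb
  have rc : c' * c' = 1 := Subtype.ext Y.cc
  have rbc : b' * c' = d' := Subtype.ext Y.bc
  have rcb : c' * b' = d' := Subtype.ext Y.cb
  have rt : (a' * c') * (a' * c') ∈ N := Subgroup.subset_normalClosure (Set.mem_singleton _)
  have rad : (a' * d') ^ 4 = 1 := Subtype.ext Y.ad_four
  have key := abs_comm (a := π a') (b := π b') (c := π c') (d := π d')
    (by rw [← map_mul, ra, map_one]) (by rw [← map_mul, rb, map_one])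
    (by rw [← map_mul, rc, map_one]) (by rw [← map_mul, rbc]) (by rw [← map_mul, rcb])
    (by
      rw [← map_mul, ← map_mul]
      exact (QuotientGroup.eq_one_iff _).2 rt)
    (by rw [← map_mul, ← map_pow, rad, map_one])
  constructor
  · have h1 := key.1
    rw [← map_mul, ← map_pow] at h1
    exact ⟨(a' * b') ^ 4, (QuotientGroup.eq_one_iff _).1 h1, rfl⟩
  · have h1 := key.2
    simp only [← map_mul] at h1
    exact ⟨b' * (a' * d' * a') * b' * (a' * d' * a'), (QuotientGroup.eq_one_iff _).1 h1, rfl⟩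

theorem K_tt : Y.pr ((Y.a * Y.c) * (Y.a * Y.c)) 1 ∈ Y.K := by
  have h := Y.K_quot.2
  have e : Y.b * (Y.a * Y.d * Y.a) * Y.b * (Y.a * Y.d * Y.a) =
      Y.pr ((Y.a * Y.c) * (Y.a * Y.c)) 1 := by
    have e1 : Y.a * Y.d * Y.a = Y.pr Y.c 1 := by
      conv_lhs => rw [d_eq, a_pr_a]
    rw [e1]
    conv_lhs => rw [b_eq]
    rw [← pr_mul, ← pr_mul, ← pr_mul, mul_one, mul_one, Y.bb]
    congr 1
  rwa [e] at h

/-- the homomorphism to the branch `false` -/
def prHom : Subgroup.closure Y.gen →* Equiv.Perm X where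
  toFun h := Y.pr h 1
  map_one' := Y.pr_one
  map_mul' g h := by
    rw [← pr_mul, mul_one]; rfl

theorem K_pr {g : Equiv.Perm X} (hg : g ∈ Y.K) : Y.pr g 1 ∈ Y.K := by
  have h1 : Subgroup.normalClosure {Y.tt} ≤ Y.K.comap Y.prHom := by
    rw [Subgroup.normalClosure, Subgroup.closure_le]
    intro x hx
    rw [Group.mem_conjugatesOfSet_iff] at hx
    obtain ⟨t, ht, hx⟩ := hx
    rw [Set.mem_singleton_iff] at ht
    subst ht
    obtain ⟨h, rfl⟩ := isConj_iff.1 hx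
    obtain ⟨h', hh'⟩ := Y.exists_pr h.2
    have e : Y.prHom (h * Y.tt * h⁻¹) = Y.pr h h' * Y.pr ((Y.a * Y.c) * (Y.a * Y.c)) 1 *
        (Y.pr h h')⁻¹ := by
      rw [← pr_inv, ← pr_mul, ← pr_mul, mul_one, mul_inv_cancel]
      rfl
    change Y.prHom (h * Y.tt * h⁻¹) ∈ Y.K
    rw [e]
    exact Y.K_conj hh' Y.K_tt
  obtain ⟨x, hx, rfl⟩ := hg
  exact h1 hx

end Sys

theorem s_K : S_K := by
  intro X _ Y
  refine ⟨Y.K, Y.K_le, fun g hg => Y.K_pr hg, fun g hg => Y.K_conj Y.a_mem hg,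
    (Y.a * Y.b) ^ 4, Y.K_quot.1, fun n hn => ?_⟩
  have h1 : ((Y.a * Y.b) ^ 4) ^ n.natAbs = 1 := by
    rcases Int.natAbs_eq n with h | h
    · rw [h, zpow_natCast] at hn
      exact hn
    · rw [h, zpow_neg, zpow_natCast, inv_eq_one] at hn
      exact hn
  rw [← pow_mul] at h1
  have h2 := Y.ab_order _ h1
  omega

end Pool.Agent.J6H54.MG
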