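import Pool.Agent.J6H54.MG.Stm

/-!
# The language of the Thue-Morse subshift by binary digits
-/

set_option autoImplicit false

namespace Pool.Agent.J6H54.MG

theorem s_tm : S_tm := by
  intro n
  rcases Nat.eq_zero_or_pos n with rfl | hn
  · refine ⟨rfl, ?_⟩
    unfold tm
    simp
  · have h1 : Nat.digits 2 (2 * n) = 0 :: Nat.digits 2 n := by
      rw [Nat.digits_def' (by norm_num) (by omega)]
      congr 1
      · omega
      · congr 1
        omega
    have h2 : Nat.digits 2 (2 * n + 1) = 1 :: Nat.digits 2 n := by
      rw [Nat.digits_def' (by norm_num) (by omega)]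
      congr 1
      · omega
      · congr 1
        omega
    unfold tm
    rw [h1, h2, List.sum_cons, List.sum_cons, zero_add]
    refine ⟨rfl, ?_⟩
    rw [← decide_not]
    congr 1
    rw [eq_iff_iff]
    omega

theorem lang_sub (g h : ℕ → Bool) (h0 : ∀ i, h (2 * i) = g i) (h1 : ∀ i, h (2 * i + 1) = !g i)
    (N : ℕ) : sub ((List.range N).map g) = (List.range (2 * N)).map h := by
  induction N with
  | zero => rfl
  | succ N ih =>
    have e : 2 * (N + 1) = 2 * N + 1 + 1 := by ring
    rw [e, List.range_succ (n := 2 * N + 1), List.range_succ (n := 2 * N), List.range_succ,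
      List.map_append, List.map_append, List.map_append, ← ih]
    unfold sub
    rw [List.flatMap_append]
    simp [h0, h1]

theorem lang_iter (a : Bool) (n : ℕ) :
    sub^[n] [a] = (List.range (2 ^ n)).map (fun i => xor a (tm i)) := by
  induction n with
  | zero =>
    have h : tm 0 = false := by
      unfold tm
      simp
    simp [h]
  | succ n ih =>
    rw [Function.iterate_succ_apply', ih, pow_succ, mul_comm]
    refine lang_sub _ _ (fun i => ?_) (fun i => ?_) _
    · rw [(s_tm i).1]
    · rw [(s_tm i).2]
      cases a <;> simp

theorem lang_shift (m : ℕ) : ∀ r : ℕ, r < 2 ^ m → tm (2 ^ m + r) = !tm r := by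
  induction m with
  | zero =>
    intro r hr
    have h : r = 0 := by
      rw [pow_zero] at hr
      omega
    subst h
    have := (s_tm 0).2
    simpa using this
  | succ m ih =>
    intro r hr
    rw [pow_succ] at hr ⊢
    obtain ⟨q, hq | hq⟩ : ∃ q, r = 2 * q ∨ r = 2 * q + 1 := ⟨r / 2, by omega⟩
    · rw [hq, show 2 ^ m * 2 + 2 * q = 2 * (2 ^ m + q) by ring, (s_tm _).1, (s_tm _).1]
      exact ih q (by omega)
    · rw [hq, show 2 ^ m * 2 + (2 * q + 1) = 2 * (2 ^ m + q) + 1 by ring, (s_tm _).2, (s_tm _).2,
        ih q (by omega)]

theorem flatMap_cast (l : List ℕ) :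
    List.flatMap (fun a : ℕ => [(a : ℤ)]) l = List.map (fun a : ℕ => (a : ℤ)) l := by
  induction l with
  | nil => rfl
  | cons a l ih =>
    rw [List.flatMap_cons, ih]
    rfl

theorem window_eq (x : ℤ → Bool) (i : ℤ) (n : ℕ) :
    window x i n = (List.range n).map (fun k : ℕ => x (i + (k : ℤ))) := by
  have h : window x i n =
      List.map (fun k : ℤ => x (i + k)) (List.flatMap (fun a : ℕ => [(a : ℤ)]) (List.range n)) := rfl
  rw [h, flatMap_cast, List.map_map]
  rfl

theorem s_lang : S_lang := by
  intro x
  constructor
  · intro hx i n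
    obtain ⟨a, m, -, s, t, hst⟩ := hx i n
    rw [lang_iter, window_eq] at hst
    have hlen : s.length + n + t.length = 2 ^ m := by
      have := congrArg List.length hst
      simp only [List.length_append, List.length_map, List.length_range] at this
      exact this
    have key : ∀ j : ℕ, j < n → x (i + j) = xor a (tm (s.length + j)) := by
      intro j hj
      have h1 : (s ++ (List.range n).map (fun k : ℕ => x (i + (k : ℤ))) ++ t)[s.length + j]? =
          some (x (i + j)) := by
        rw [List.append_assoc, List.getElem?_append_right (by omega), Nat.add_sub_cancel_left,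
          List.getElem?_append_left (by simpa using hj)]
        simp [hj]
      rw [hst] at h1
      rw [List.getElem?_map, List.getElem?_range (by omega)] at h1
      simpa using h1.symm
    cases a with
    | false => exact ⟨s.length, fun j hj => by simpa using key j hj⟩
    | true =>
      refine ⟨2 ^ m + s.length, fun j hj => ?_⟩
      rw [key j hj, add_assoc, lang_shift m _ (by omega)]
      simp
  · intro hx i n
    obtain ⟨k, hk⟩ := hx i n
    have hlt : k + n < 2 ^ (k + n + 1) :=
      lt_of_lt_of_le Nat.lt_two_pow_self (Nat.pow_le_pow_right (by norm_num) (by omega))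
    refine ⟨false, k + n + 1, by omega, ?_⟩
    rw [lang_iter]
    obtain ⟨r, hr⟩ := Nat.exists_eq_add_of_lt hlt
    have hr' : 2 ^ (k + n + 1) = k + n + (r + 1) := by omega
    rw [hr', List.range_add, List.range_add, List.map_append, List.map_append]
    refine ⟨(List.range k).map (fun i => xor false (tm i)),
      ((List.range (r + 1)).map (fun x => k + n + x)).map (fun i => xor false (tm i)), ?_⟩
    congr 2
    rw [List.map_map, window_eq]
    refine List.map_congr_left fun j hj => ?_
    rw [List.mem_range] at hj
    simp [hk j hj]

end Pool.Agent.J6H54.MG
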