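import Pool.Agent.J6H54.MG.Stm

/-!
# Growth of groups with free abelian subgroups of all ranks
-/

set_option autoImplicit false

open scoped Pointwise
open Filter Topology

namespace Pool.Agent.J6H54.MG

namespace LowAux

variable {G : Type} [Group G]

/-- the generators, their inverses, and `1` -/
def A (S : Set G) : Set G := S ∪ S⁻¹ ∪ {1}

theorem one_mem (S : Set G) : (1 : G) ∈ A S := Or.inr rfl

theorem inv_A (S : Set G) : (A S)⁻¹ = A S := by
  unfold A
  rw [Set.union_inv, Set.union_inv, inv_inv, Set.union_comm S⁻¹ S]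
  congr 1
  ext x
  simp

theorem mono (S : Set G) {m n : ℕ} (h : m ≤ n) : (A S) ^ m ⊆ (A S) ^ n :=
  Set.pow_subset_pow_right (one_mem S) h

theorem fin {S : Set G} (h : S.Finite) (n : ℕ) : ((A S) ^ n).Finite := by
  have h1 : (A S).Finite := (h.union h.inv).union (Set.finite_singleton 1)
  induction n with
  | zero => simp
  | succ n ih => rw [pow_succ]; exact ih.mul h1

theorem exists_pow (S : Set G) {x : G} (hx : x ∈ Subgroup.closure S) : ∃ n : ℕ, x ∈ (A S) ^ n := by
  induction hx using Subgroup.closure_induction with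
  | mem x hx => exact ⟨1, by rw [pow_one]; exact Or.inl (Or.inl hx)⟩
  | one => exact ⟨0, by simp⟩
  | mul x y _ _ hx hy =>
    obtain ⟨m, hm⟩ := hx
    obtain ⟨n, hn⟩ := hy
    exact ⟨m + n, by rw [pow_add]; exact Set.mul_mem_mul hm hn⟩
  | inv x _ hx =>
    obtain ⟨m, hm⟩ := hx
    refine ⟨m, ?_⟩
    rw [← inv_A S, inv_pow]
    exact Set.inv_mem_inv.2 hm

theorem mem_pow {S : Set G} {N l : ℕ} (f : Multiplicative (Fin N → ℤ) →* G)
    (hl : ∀ i : Fin N, f (Multiplicative.ofAdd (Pi.single i 1)) ∈ (A S) ^ l) :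
    ∀ (s : ℕ) (e : Fin N → ℕ), ∑ i, e i = s →
      f (Multiplicative.ofAdd fun i => (e i : ℤ)) ∈ (A S) ^ (l * s) := by
  intro s
  induction s with
  | zero =>
    intro e he
    have h0 : (fun i => (e i : ℤ)) = 0 := by
      funext i
      have := (Finset.sum_eq_zero_iff.1 he) i (Finset.mem_univ i)
      simp [this]
    rw [h0]
    simp
  | succ s ih =>
    intro e he
    have hne : ∃ i, e i ≠ 0 := by
      by_contra hc
      push Not at hc
      rw [Finset.sum_eq_zero fun i _ => hc i] at he
      omega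
    obtain ⟨i, hi⟩ := hne
    set e' : Fin N → ℕ := Function.update e i (e i - 1) with he'
    have hsum : ∑ j, e' j = s := by
      have h1 : ∑ j, e' j = (e i - 1) + ∑ j ∈ Finset.univ \ {i}, e j := by
        rw [he', Finset.sum_update_of_mem (Finset.mem_univ i)]
      have h2 : ∑ j, e j = e i + ∑ j ∈ Finset.univ \ {i}, e j := by
        rw [← Finset.sum_update_of_mem (Finset.mem_univ i) e (e i), Function.update_eq_self]
      omega
    have hfun : (fun j => (e j : ℤ)) = (fun j => (e' j : ℤ)) + Pi.single i 1 := by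
      funext j
      by_cases hj : j = i
      · subst hj
        simp only [he', Pi.add_apply, Function.update_self, Pi.single_eq_same]
        omega
      · simp [he', hj]
    rw [hfun, ofAdd_add, map_mul, mul_add, mul_one, pow_add]
    exact Set.mul_mem_mul (ih e' hsum) (hl i)

theorem card_le {S : Set G} (hS : S.Finite) {N l : ℕ} (f : Multiplicative (Fin N → ℤ) →* G)
    (hf : Function.Injective f)
    (hl : ∀ i : Fin N, f (Multiplicative.ofAdd (Pi.single i 1)) ∈ (A S) ^ l) (r n : ℕ)
    (hn : l * (N * r) ≤ n) : (r + 1) ^ N ≤ ball S n := by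
  classical
  let g : (Fin N → Fin (r + 1)) → G := fun e => f (Multiplicative.ofAdd fun i => ((e i : ℕ) : ℤ))
  have hg : Function.Injective g := by
    intro e e' h
    have h1 := hf h
    have h2 := Multiplicative.ofAdd.injective h1
    funext i
    have h3 := congrFun h2 i
    simp only [Nat.cast_inj] at h3
    exact Fin.ext h3
  have hmem : Set.range g ⊆ (A S) ^ n := by
    rintro _ ⟨e, rfl⟩
    have h1 := mem_pow (S := S) f hl (∑ i, (e i : ℕ)) (fun i => (e i : ℕ)) rfl
    refine mono S ?_ h1
    refine le_trans (Nat.mul_le_mul_left l ?_) hn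
    calc ∑ i, (e i : ℕ) ≤ ∑ _i : Fin N, r := Finset.sum_le_sum fun i _ => by
          have := (e i).2; omega
      _ = N * r := by simp
  have h1 : (Set.range g).ncard = (r + 1) ^ N := by
    rw [← Set.image_univ, Set.ncard_image_of_injective _ hg, Set.ncard_univ, Nat.card_eq_fintype_card,
      Fintype.card_fun, Fintype.card_fin, Fintype.card_fin]
  rw [← h1]
  exact Set.ncard_le_ncard hmem (fin hS n)

end LowAux

open LowAux in
theorem s_low : S_low := by
  intro G _ S hS hN d
  obtain ⟨f, hf, hcl⟩ := hN (d + 1)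
  choose k hk using fun i : Fin (d + 1) =>
    exists_pow S (hcl (Multiplicative.ofAdd (Pi.single i 1)))
  set l : ℕ := 1 + ∑ i, k i with hl
  have hl' : ∀ i : Fin (d + 1), f (Multiplicative.ofAdd (Pi.single i 1)) ∈ (A S) ^ l := fun i => by
    refine mono S ?_ (hk i)
    have := Finset.single_le_sum (f := k) (fun i _ => Nat.zero_le _) (Finset.mem_univ i)
    omega
  set M : ℕ := l * (d + 1) with hM
  have hMpos : 0 < M := by rw [hM]; positivity
  have key : ∀ n : ℕ, ((n : ℝ) / M) ^ (d + 1) ≤ (ball S n : ℝ) := by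
    intro n
    have h1 := card_le hS f hf hl' (n / M) n (by
      rw [← mul_assoc, ← hM]; exact Nat.mul_div_le n M)
    have h2 : (n : ℝ) / M ≤ ((n / M + 1 : ℕ) : ℝ) := by
      rw [div_le_iff₀ (by exact_mod_cast hMpos)]
      have := Nat.lt_div_mul_add (a := n) hMpos
      have h3 : n ≤ (n / M + 1) * M := by rw [add_mul, one_mul]; omega
      exact_mod_cast h3
    calc ((n : ℝ) / M) ^ (d + 1) ≤ (((n / M + 1 : ℕ)) : ℝ) ^ (d + 1) :=
          pow_le_pow_left₀ (by positivity) h2 _
      _ ≤ (ball S n : ℝ) := by exact_mod_cast h1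
  have hlim : Tendsto (fun n : ℕ => (1 / (M : ℝ) ^ (d + 1)) * (n : ℝ)) atTop atTop :=
    Tendsto.const_mul_atTop (by positivity) tendsto_natCast_atTop_atTop
  refine tendsto_atTop_mono' _ ?_ hlim
  filter_upwards [eventually_gt_atTop 0] with n hn
  have hn' : (0 : ℝ) < n := by exact_mod_cast hn
  rw [le_div_iff₀ (by positivity)]
  refine le_trans (le_of_eq ?_) (key n)
  rw [div_pow, pow_succ (n : ℝ) d]
  ring

end Pool.Agent.J6H54.MG
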