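import Pool.Agent.J6H54.MG.Stm

/-!
# Module MG-NE: the Thue-Morse subshift is not empty
-/

set_option autoImplicit false

namespace Pool.Agent.J6H54.MG

theorem ne_tm_add (h1 : S_tm) (m : ℕ) :
    ∀ a p : ℕ, p < 2 ^ m → tm (a * 2 ^ m + p) = xor (tm a) (tm p) := by
  have h0 : tm 0 = false := by simp [tm]
  induction m with
  | zero =>
    intro a p hp
    have : p = 0 := by simpa using hp
    subst this
    simp [h0]
  | succ m ih =>
    intro a p hp
    obtain ⟨q, rfl | rfl⟩ : ∃ q, p = 2 * q ∨ p = 2 * q + 1 := ⟨p / 2, by omega⟩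
    · have hq : q < 2 ^ m := by rw [pow_succ] at hp; omega
      have e : a * 2 ^ (m + 1) + 2 * q = 2 * (a * 2 ^ m + q) := by ring
      rw [e, (h1 _).1, ih a q hq, (h1 q).1]
    · have hq : q < 2 ^ m := by rw [pow_succ] at hp; omega
      have e : a * 2 ^ (m + 1) + (2 * q + 1) = 2 * (a * 2 ^ m + q) + 1 := by ring
      rw [e, (h1 _).2, ih a q hq, (h1 q).2]
      cases tm a <;> cases tm q <;> rfl

theorem ne_tm_rev (h1 : S_tm) (m : ℕ) :
    ∀ q : ℕ, q < 2 ^ m → tm (2 ^ m - 1 - q) = xor (tm q) (decide (m % 2 = 1)) := by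
  have h0 : tm 0 = false := by simp [tm]
  induction m with
  | zero =>
    intro p hp
    have : p = 0 := by simpa using hp
    subst this
    simp [h0]
  | succ m ih =>
    intro p hp
    have hd : decide ((m + 1) % 2 = 1) = !decide (m % 2 = 1) := by
      rcases Nat.mod_two_eq_zero_or_one m with h | h
      · have h' : (m + 1) % 2 = 1 := by omega
        simp [h, h']
      · have h' : (m + 1) % 2 = 0 := by omega
        simp [h, h']
    obtain ⟨q, rfl | rfl⟩ : ∃ q, p = 2 * q ∨ p = 2 * q + 1 := ⟨p / 2, by omega⟩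
    · have hq : q < 2 ^ m := by rw [pow_succ] at hp; omega
      have e : 2 ^ (m + 1) - 1 - 2 * q = 2 * (2 ^ m - 1 - q) + 1 := by
        rw [pow_succ] at hp ⊢
        omega
      rw [e, (h1 _).2, ih q hq, (h1 q).1, hd]
      cases tm q <;> cases decide (m % 2 = 1) <;> rfl
    · have hq : q < 2 ^ m := by rw [pow_succ] at hp; omega
      have e : 2 ^ (m + 1) - 1 - (2 * q + 1) = 2 * (2 ^ m - 1 - q) := by
        rw [pow_succ] at hp ⊢
        omega
      rw [e, (h1 _).1, ih q hq, (h1 q).2, hd]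
      cases tm q <;> cases decide (m % 2 = 1) <;> rfl

theorem s_ne (h1 : S_tm) (h2 : S_lang) : S_ne := by
  have t0 : tm 0 = false := by simp [tm]
  have t1 : tm 1 = true := by
    have h := (h1 0).2
    rw [t0] at h
    exact h
  have t2 : tm 2 = true := by
    have h := (h1 1).1
    rw [t1] at h
    exact h
  have t3 : tm 3 = false := by
    have h := (h1 1).2
    rw [t1] at h
    exact h
  have t5 : tm 5 = false := by
    have h := (h1 2).2
    rw [t2] at h
    exact h
  have t6 : tm 6 = false := by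
    have h := (h1 3).1
    rw [t3] at h
    exact h
  let x : ℤ → Bool := fun n => if 0 ≤ n then tm n.toNat else tm (-n - 1).toNat
  refine ⟨⟨x, (h2 x).2 ?_⟩⟩
  intro i n
  obtain ⟨M, hM⟩ : ∃ M, M = 2 * (i.natAbs + n + 1) := ⟨_, rfl⟩
  have hMe : M % 2 = 0 := by omega
  have hlt : M < 2 ^ M := Nat.lt_two_pow_self
  obtain ⟨B, hB⟩ : ∃ B, B = 2 ^ M := ⟨_, rfl⟩
  rw [← hB] at hlt
  refine ⟨(6 * (B : ℤ) + i).toNat, ?_⟩
  intro j hj
  by_cases hp : 0 ≤ i + (j : ℤ)
  · have hx : x (i + j) = tm (i + (j : ℤ)).toNat := if_pos hp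
    have e : (6 * (B : ℤ) + i).toNat + j = 6 * B + (i + (j : ℤ)).toNat := by omega
    have hlt2 : (i + (j : ℤ)).toNat < 2 ^ M := by rw [← hB]; omega
    rw [hx, e, hB, ne_tm_add h1 M 6 _ hlt2, t6]
    simp
  · have hx : x (i + j) = tm (-(i + (j : ℤ)) - 1).toNat := if_neg hp
    have hlt2 : (-(i + (j : ℤ)) - 1).toNat < 2 ^ M := by rw [← hB]; omega
    have e : (6 * (B : ℤ) + i).toNat + j = 5 * B + (B - 1 - (-(i + (j : ℤ)) - 1).toNat) := by omega
    have hlt3 : 2 ^ M - 1 - (-(i + (j : ℤ)) - 1).toNat < 2 ^ M := by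
      rw [← hB]
      omega
    rw [hx, e, hB, ne_tm_add h1 M 5 _ hlt3, t5, ne_tm_rev h1 M _ hlt2, hMe]
    simp

end Pool.Agent.J6H54.MG
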