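import Pool.Agent.J6H54.MG.Stm

/-!
# Project MG: places with `x n = x (n + 1)` (helper5)
-/

set_option autoImplicit false

namespace Pool.Agent.J6H54.MG

lemma tm_odd (h1 : S_tm) {n : ℕ} (h : tm n = tm (n + 1)) : ∃ k, n = 2 * k + 1 := by
  rcases Nat.even_or_odd' n with ⟨k, hk | hk⟩
  · subst hk
    rw [(h1 k).1, (h1 k).2] at h
    cases hb : tm k <;> rw [hb] at h <;> exact absurd h (by decide)
  · exact ⟨k, hk⟩

theorem s_par (h1 : S_tm) (h2 : S_lang) : S_par := by
  intro x hx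
  have hw := (h2 x).1 hx
  constructor
  · intro m n hm hn
    obtain ⟨k, hk⟩ := hw (min m n) ((m - n).natAbs + 2)
    obtain ⟨a, ha⟩ : ∃ a : ℕ, m = min m n + a := ⟨(m - min m n).toNat, by omega⟩
    obtain ⟨b, hb⟩ : ∃ b : ℕ, n = min m n + b := ⟨(n - min m n).toNat, by omega⟩
    have ha1 := hk a (by omega)
    have ha2 := hk (a + 1) (by omega)
    have hb1 := hk b (by omega)
    have hb2 := hk (b + 1) (by omega)
    rw [← ha] at ha1
    rw [← hb] at hb1
    rw [show min m n + ((a + 1 : ℕ) : ℤ) = m + 1 by push_cast; omega] at ha2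
    rw [show min m n + ((b + 1 : ℕ) : ℤ) = n + 1 by push_cast; omega] at hb2
    obtain ⟨u, hu⟩ := tm_odd h1 (n := k + a) (by rw [← ha1, hm, ha2]; rfl)
    obtain ⟨w, hw'⟩ := tm_odd h1 (n := k + b) (by rw [← hb1, hn, hb2]; rfl)
    exact ⟨u - w, by omega⟩
  · intro n
    obtain ⟨k, hk⟩ := hw n 5
    by_contra hne
    push Not at hne
    have e0 := hne 0 (by norm_num) (by norm_num)
    have e1 := hne 1 (by norm_num) (by norm_num)
    have e2 := hne 2 (by norm_num) (by norm_num)
    have e3 := hne 3 (by norm_num) (by norm_num)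
    have k0 := hk 0 (by norm_num)
    have k1 := hk 1 (by norm_num)
    have k2 := hk 2 (by norm_num)
    have k3 := hk 3 (by norm_num)
    have k4 := hk 4 (by norm_num)
    rw [show n + 1 + 1 = n + 2 by ring] at e1
    rw [show n + 2 + 1 = n + 3 by ring] at e2
    rw [show n + 3 + 1 = n + 4 by ring] at e3
    push_cast at k0 k1 k2 k3 k4
    rw [k0, show n + 0 + 1 = n + 1 by ring, k1] at e0
    rw [k1, k2] at e1
    rw [k2, k3] at e2
    rw [k3, k4] at e3
    rcases Nat.even_or_odd' k with ⟨l, hl | hl⟩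
    · subst hl
      rw [show 2 * l + 2 = 2 * (l + 1) by ring, (h1 (l + 1)).1] at e1 e2
      rw [show 2 * l + 0 = 2 * l by ring, (h1 l).1, (h1 l).2] at e0
      rw [(h1 l).2] at e1
      rw [show 2 * l + 3 = 2 * (l + 1) + 1 by ring, (h1 (l + 1)).2] at e2 e3
      rw [show 2 * l + 4 = 2 * (l + 2) by ring, (h1 (l + 2)).1] at e3
      obtain ⟨u, hu⟩ := tm_odd h1 (n := l) (by
        revert e1; cases tm l <;> cases tm (l + 1) <;> simp)
      obtain ⟨w, hw'⟩ := tm_odd h1 (n := l + 1) (by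
        show tm (l + 1) = tm (l + 2)
        revert e3; cases tm (l + 2) <;> cases tm (l + 1) <;> simp)
      omega
    · subst hl
      rw [show 2 * l + 1 + 0 = 2 * l + 1 by ring, (h1 l).2, show 2 * l + 1 + 1 = 2 * (l + 1) by ring, (h1 (l + 1)).1] at e0
      rw [show 2 * l + 1 + 2 = 2 * (l + 1) + 1 by ring, (h1 (l + 1)).2,
        show 2 * l + 1 + 3 = 2 * (l + 2) by ring, (h1 (l + 2)).1] at e2
      obtain ⟨u, hu⟩ := tm_odd h1 (n := l) (by
        revert e0; cases tm l <;> cases tm (l + 1) <;> simp)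
      obtain ⟨w, hw'⟩ := tm_odd h1 (n := l + 1) (by
        show tm (l + 1) = tm (l + 2)
        revert e2; cases tm (l + 2) <;> cases tm (l + 1) <;> simp)
      omega

lemma P_true (h : S_par) {x : ℤ → Bool} (hx : InM x) (hP : P x = true) {n : ℤ} (hn : x n = x (n + 1)) :
    ∃ k, n = 2 * k + 1 := by
  have hP' : x 1 = x 2 ∨ x 3 = x 4 := by simpa [P] using hP
  rcases hP' with h1 | h1
  · obtain ⟨r, hr⟩ := (h x hx).1 n 1 hn h1
    exact ⟨r, by omega⟩
  · obtain ⟨r, hr⟩ := (h x hx).1 n 3 hn h1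
    exact ⟨r + 1, by omega⟩

lemma P_false (h : S_par) {x : ℤ → Bool} (hx : InM x) (hP : P x = false) {n : ℤ} (hn : x n = x (n + 1)) :
    ∃ k, n = 2 * k := by
  have hP' : x 1 ≠ x 2 ∧ x 3 ≠ x 4 := by simpa [P] using hP
  obtain ⟨j, hj0, hj4, hj⟩ := (h x hx).2 1
  obtain ⟨r, hr⟩ := (h x hx).1 n (1 + j) hn hj
  have hj' : j = 0 ∨ j = 1 ∨ j = 2 ∨ j = 3 := by omega
  rcases hj' with rfl | rfl | rfl | rfl
  · exact absurd hj (by norm_num; exact hP'.1)
  · exact ⟨r + 1, by omega⟩
  · exact absurd hj (by norm_num; exact hP'.2)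
  · exact ⟨r + 2, by omega⟩

theorem s_P (h : S_par) : S_P := by
  intro x hx
  -- shifts by an odd number
  have hs : ∀ m : ℤ, (∃ r, m = 2 * r + 1) → P (sh m x) = !P x := by
    rintro m ⟨r, hr⟩
    obtain ⟨j, -, -, hj⟩ := (h x hx).2 m
    have hj' : sh m x j = sh m x (j + 1) := by
      unfold sh
      rw [show j + m = m + j by ring, hj]
      congr 1
      ring
    cases hP : P x with
    | true =>
      obtain ⟨a, ha⟩ := P_true h hx hP hj
      cases hQ : P (sh m x) with
      | true =>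
        obtain ⟨b, hb⟩ := P_true h (inM_sh hx m) hQ hj'
        omega
      | false => rfl
    | false =>
      obtain ⟨a, ha⟩ := P_false h hx hP hj
      cases hQ : P (sh m x) with
      | true => rfl
      | false =>
        obtain ⟨b, hb⟩ := P_false h (inM_sh hx m) hQ hj'
        omega
  refine ⟨hs 1 ⟨0, by norm_num⟩, hs (-1) ⟨-1, by norm_num⟩, fun hP k => ?_, fun hP k => ?_⟩
  · by_contra hne
    obtain ⟨a, ha⟩ := P_true h hx hP (n := 2 * k) (by
      revert hne; cases x (2 * k) <;> cases x (2 * k + 1) <;> simp)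
    omega
  · by_contra hne
    obtain ⟨a, ha⟩ := P_false h hx hP (n := 2 * k - 1) (by
      rw [show 2 * k - 1 + 1 = 2 * k by ring]
      revert hne; cases x (2 * k) <;> cases x (2 * k - 1) <;> simp)
    omega

end Pool.Agent.J6H54.MG
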