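import Pool.Agent.J6H54.MG.Stm

/-! Project MG, module Q: finiteness and trivial bounds of `Q` (helper73). -/

set_option autoImplicit false

open scoped Pointwise
open Filter Topology

namespace Pool.Agent.J6H54.MG

namespace QQ

/-- the words of length at most `n` -/
def words : ℕ → Finset (List V)
  | 0 => {[]}
  | n + 1 => insert [] (((Finset.univ : Finset V) ×ˢ words n).image fun p => p.1 :: p.2)

theorem mem_words (L : List V) : ∀ n, L.length ≤ n → L ∈ words n := by
  induction L with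
  | nil => intro n _; cases n <;> simp [words]
  | cons v L ih =>
    intro n hn
    cases n with
    | zero => simp at hn
    | succ n =>
      have h1 : L ∈ words n := ih n (by simpa using hn)
      simp [words, h1]

theorem card_words (n : ℕ) : (words n).card + 1 ≤ 4 ^ (n + 1) := by
  induction n with
  | zero => simp [words]
  | succ n ih =>
    have h1 : (words (n + 1)).card ≤ (((Finset.univ : Finset V) ×ˢ words n).image fun p => p.1 :: p.2).card + 1 :=
      Finset.card_insert_le _ _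
    have h2 : (((Finset.univ : Finset V) ×ˢ words n).image fun p => p.1 :: p.2).card ≤ 4 * (words n).card := by
      refine Finset.card_image_le.trans ?_
      rw [Finset.card_product]
      exact le_of_eq rfl
    have h3 : 4 ^ (n + 1 + 1) = 4 * 4 ^ (n + 1) := by ring
    omega

theorem length_le (u : V) (L : List V) : L.length ≤ W u L := by
  unfold W
  induction L with
  | nil => simp
  | cons v L ih =>
    simp only [List.length_cons, List.map_cons, List.sum_cons]
    omega

variable {X : Type} (Y : Sys X)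

theorem Q_sub (n : ℕ) : Y.Q n ⊆ ((((Finset.univ : Finset V) ×ˢ words n).image fun p => (p.1, p.2) : Finset (V × List V)) : Set (V × List V)).image
    fun p => Y.val p.1 * Y.ev p.2 := by
  rintro g ⟨u, L, h, rfl⟩
  refine ⟨(u, L), ?_, rfl⟩
  have := mem_words L n ((length_le u L).trans h)
  simp [this]

theorem aa : Y.a * Y.a = 1 := by
  ext x
  obtain ⟨⟨y, j⟩, rfl⟩ := Y.Φ.surjective x
  simp [Y.a_eq]

theorem dd : Y.d * Y.d = 1 := by
  calc Y.d * Y.d = (Y.b * Y.c) * (Y.c * Y.b) := by rw [Y.bc, Y.cb]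
    _ = Y.b * (Y.c * Y.c) * Y.b := by group
    _ = 1 := by rw [Y.cc, mul_one, Y.bb]

theorem bd : Y.b * Y.d = Y.c := by rw [← Y.bc, ← mul_assoc, Y.bb, one_mul]
theorem db : Y.d * Y.b = Y.c := by rw [← Y.cb, mul_assoc, Y.bb, mul_one]
theorem cd : Y.c * Y.d = Y.b := by rw [← Y.cb, ← mul_assoc, Y.cc, one_mul]
theorem dc : Y.d * Y.c = Y.b := by rw [← Y.bc, mul_assoc, Y.cc, mul_one]

theorem val_mul (w u : V) : Y.val w * Y.val u = Y.val (w.mul u) := by
  cases w <;> cases u <;>
    simp [Sys.val, V.mul, Y.bb, Y.cc, Y.bc, Y.cb, dd Y, bd Y, db Y, cd Y, dc Y]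

theorem wt_mul (w u : V) : (w.mul u).wt ≤ u.wt + 4 := by
  cases w <;> cases u <;> simp [V.mul, V.wt]

theorem one_mem : (1 : Equiv.Perm X) ∈ Y.Q 0 := ⟨V.e, [], by simp [W, V.wt], by simp [Sys.val, Sys.ev]⟩

theorem val_Q (w : V) {n : ℕ} {g : Equiv.Perm X} (hg : g ∈ Y.Q n) : Y.val w * g ∈ Y.Q (n + 4) := by
  obtain ⟨u, L, h, rfl⟩ := hg
  refine ⟨w.mul u, L, ?_, ?_⟩
  · have := wt_mul w u
    unfold W at h ⊢
    omega
  · rw [← mul_assoc, val_mul]

theorem a_Q {n : ℕ} {g : Equiv.Perm X} (hg : g ∈ Y.Q n) : Y.a * g ∈ Y.Q (n + 4) := by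
  obtain ⟨u, L, h, rfl⟩ := hg
  refine ⟨V.e, u :: L, ?_, ?_⟩
  · unfold W at h ⊢
    simp only [V.wt, List.map_cons, List.sum_cons]
    simp only [V.wt] at h
    omega
  · simp [Sys.val, Sys.ev, mul_assoc]

theorem mem_step {h g : Equiv.Perm X} {n : ℕ} (hh : h ∈ Y.gen ∪ Y.gen⁻¹ ∪ {1}) (hg : g ∈ Y.Q n) :
    h * g ∈ Y.Q (n + 4) := by
  have hgen : ∀ x ∈ Y.gen, x * g ∈ Y.Q (n + 4) := by
    intro x hx
    simp only [Sys.gen, Set.mem_insert_iff, Set.mem_singleton_iff] at hx
    rcases hx with rfl | rfl | rfl | rfl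
    · exact a_Q Y hg
    · exact val_Q Y V.b hg
    · exact val_Q Y V.c hg
    · exact val_Q Y V.d hg
  have hinv : ∀ x ∈ Y.gen, x⁻¹ = x := by
    intro x hx
    simp only [Sys.gen, Set.mem_insert_iff, Set.mem_singleton_iff] at hx
    rcases hx with rfl | rfl | rfl | rfl
    · exact inv_eq_of_mul_eq_one_left (aa Y)
    · exact inv_eq_of_mul_eq_one_left Y.bb
    · exact inv_eq_of_mul_eq_one_left Y.cc
    · exact inv_eq_of_mul_eq_one_left (dd Y)
  rcases hh with (hh | hh) | hh
  · exact hgen h hh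
  · have h1 := hinv h⁻¹ hh
    rw [inv_inv] at h1
    refine hgen h ?_
    rw [h1]
    exact hh
  · rw [Set.mem_singleton_iff.1 hh]
    exact val_Q Y V.e hg

end QQ

open QQ in
theorem s_Q : S_Q := by
  intro X Y
  have hfin : ∀ n, (Y.Q n).Finite := fun n => ((Finset.finite_toSet _).image _).subset (Q_sub Y n)
  refine ⟨hfin, fun n => ?_, fun n => ?_⟩
  · refine (Set.ncard_le_ncard (Q_sub Y n) ((Finset.finite_toSet _).image _)).trans ?_
    refine (Set.ncard_image_le (Finset.finite_toSet _)).trans ?_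
    rw [Set.ncard_coe_finset]
    refine Finset.card_image_le.trans ?_
    rw [Finset.card_product]
    have h1 := card_words n
    have h2 : (Finset.univ : Finset V).card = 4 := rfl
    have h3 : 4 ^ (n + 2) = 4 * 4 ^ (n + 1) := by ring
    rw [h2, h3]
    omega
  · induction n with
    | zero => simpa using one_mem Y
    | succ n ih =>
      rw [pow_succ']
      rintro _ ⟨h, hh, g, hg, rfl⟩
      exact mem_step Y hh (ih hg)

end Pool.Agent.J6H54.MG
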