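import Pool.Agent.J6H54.MG.Stm

/-!
# The counting recursion
-/

set_option autoImplicit false

open scoped Pointwise
open Filter Topology

namespace Pool.Agent.J6H54.MG

namespace RecAux

variable {X : Type} (Y : Sys X)

/-- `g` maps the branch `false` by `g0` to the branch `p`, and the branch `true` by `g1` to the other
branch -/
def Dec (g : Equiv.Perm X) (q : Bool × Equiv.Perm X × Equiv.Perm X) : Prop :=
  ∀ x, g (Y.Φ (x, false)) = Y.Φ (q.2.1 x, q.1) ∧ g (Y.Φ (x, true)) = Y.Φ (q.2.2 x, !q.1)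

theorem dec_unique {g g' : Equiv.Perm X} {q : Bool × Equiv.Perm X × Equiv.Perm X}
    (h : Dec Y g q) (h' : Dec Y g' q) : g = g' := by
  ext y
  obtain ⟨⟨x, j⟩, rfl⟩ := Y.Φ.surjective y
  cases j
  · rw [(h x).1, (h' x).1]
  · rw [(h x).2, (h' x).2]

open Classical in
/-- the permutation with a given decomposition -/
noncomputable def G (q : Bool × Equiv.Perm X × Equiv.Perm X) : Equiv.Perm X :=
  if h : ∃ g, Dec Y g q then h.choose else 1

theorem G_eq {g : Equiv.Perm X} {q : Bool × Equiv.Perm X × Equiv.Perm X} (h : Dec Y g q) :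
    G Y q = g := by
  have h0 : ∃ g, Dec Y g q := ⟨g, h⟩
  unfold G
  rw [dif_pos h0]
  exact dec_unique Y h0.choose_spec h

/-- the candidates -/
noncomputable def D (i j : ℕ) : Set (Equiv.Perm X) :=
  G Y '' ((Set.univ : Set Bool) ×ˢ (Y.Q i ×ˢ Y.Q j))

theorem D_card (hfin : ∀ n, (Y.Q n).Finite) (i j : ℕ) :
    (D Y i j).Finite ∧ (D Y i j).ncard ≤ 2 * ((Y.Q i).ncard * (Y.Q j).ncard) := by
  have hf : ((Set.univ : Set Bool) ×ˢ (Y.Q i ×ˢ Y.Q j)).Finite :=
    Set.finite_univ.prod ((hfin i).prod (hfin j))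
  refine ⟨hf.image _, (Set.ncard_image_le hf).trans ?_⟩
  rw [Set.ncard_prod, Set.ncard_prod, Set.ncard_univ, Nat.card_eq_fintype_card, Fintype.card_bool]

end RecAux

open RecAux in
theorem s_rec (h1 : S_contr) (h2 : S_count) (h3 : S_Q) : S_rec := by
  intro X Y m n
  obtain ⟨hfin, -, -⟩ := h3 Y
  have hA := (h2 m n).1
  set A : Set (V × List V) := {p | W p.1 p.2 ≤ n ∧ nonb p.2 < m} with hAdef
  let e : V × List V → Equiv.Perm X := fun p => Y.val p.1 * Y.ev p.2
  by_cases hmn : m ≤ n + 2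
  · rw [if_pos hmn]
    have hsub : Y.Q n ⊆ e '' A ∪ ⋃ i ∈ Finset.range (n + 3 - m), D Y i (n + 2 - m - i) := by
      rintro g ⟨u, L, hW, rfl⟩
      by_cases hb : nonb L < m
      · exact Or.inl ⟨(u, L), ⟨hW, hb⟩, rfl⟩
      · right
        obtain ⟨p, u0, u1, L0, L1, hle, hx⟩ := h1 Y u L
        simp only [Set.mem_iUnion]
        refine ⟨W u0 L0, Finset.mem_range.2 (by omega), ?_⟩
        refine ⟨(p, Y.val u0 * Y.ev L0, Y.val u1 * Y.ev L1), ⟨Set.mem_univ _, ?_, ?_⟩, ?_⟩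
        · exact ⟨u0, L0, le_rfl, rfl⟩
        · exact ⟨u1, L1, by omega, rfl⟩
        · exact G_eq Y fun x => hx x
    have hU : (⋃ i ∈ Finset.range (n + 3 - m), D Y i (n + 2 - m - i)).Finite :=
      Set.Finite.biUnion (Finset.finite_toSet _) fun i _ => (D_card Y hfin _ _).1
    calc (Y.Q n).ncard ≤ (e '' A ∪ ⋃ i ∈ Finset.range (n + 3 - m), D Y i (n + 2 - m - i)).ncard :=
          Set.ncard_le_ncard hsub ((hA.image _).union hU)
      _ ≤ (e '' A).ncard + (⋃ i ∈ Finset.range (n + 3 - m), D Y i (n + 2 - m - i)).ncard :=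
          Set.ncard_union_le _ _
      _ ≤ A.ncard + ∑ i ∈ Finset.range (n + 3 - m), (D Y i (n + 2 - m - i)).ncard :=
          Nat.add_le_add (Set.ncard_image_le hA) (Finset.set_ncard_biUnion_le _ _)
      _ ≤ _ := by
          rw [Finset.mul_sum]
          exact Nat.add_le_add_left (Finset.sum_le_sum fun i _ => (D_card Y hfin _ _).2) _
  · rw [if_neg hmn, add_zero]
    have hsub : Y.Q n ⊆ e '' A := by
      rintro g ⟨u, L, hW, rfl⟩
      by_cases hb : nonb L < m
      · exact ⟨(u, L), ⟨hW, hb⟩, rfl⟩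
      · exfalso
        obtain ⟨p, u0, u1, L0, L1, hle, hx⟩ := h1 Y u L
        omega
    exact (Set.ncard_le_ncard hsub (hA.image _)).trans (Set.ncard_image_le hA)

end Pool.Agent.J6H54.MG
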