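import Pool.Agent.J6H54.MG.Stm

/-!
# Project MG (helper54), module MG-SELF: the self-similar structure (helper94)
-/

set_option autoImplicit false

namespace Pool.Agent.J6H54.MG

theorem self_sh_sh (m n : ℤ) (x : ℤ → Bool) : sh m (sh n x) = sh (m + n) x := by
  funext k
  show x (k + m + n) = x (k + (m + n))
  rw [add_assoc]

theorem sh_zero' (x : ℤ → Bool) : sh 0 x = x := by
  funext k
  show x (k + 0) = x k
  rw [add_zero]

theorem self_up_even (x : ℤ → Bool) (k : ℤ) : up x (2 * k) = x k := by
  have h1 : (2 * k) / 2 = k := by omega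
  simp [up, h1]

theorem self_up_odd (x : ℤ → Bool) (k : ℤ) : up x (2 * k + 1) = !x k := by
  have h1 : (2 * k + 1) / 2 = k := by omega
  have h2 : (2 * k + 1) % 2 = 1 := by omega
  simp [up, h1, h2]

theorem sh_two_up (m : ℤ) (x : ℤ → Bool) : sh (2 * m) (up x) = up (sh m x) := by
  funext k
  rcases Int.even_or_odd' k with ⟨j, rfl | rfl⟩
  · rw [self_up_even]
    show up x (2 * j + 2 * m) = x (j + m)
    rw [← mul_add, self_up_even]
  · rw [self_up_odd]
    show up x (2 * j + 1 + 2 * m) = !x (j + m)
    have h : 2 * j + 1 + 2 * m = 2 * (j + m) + 1 := by ring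
    rw [h, self_up_odd]

theorem sh_neg_up (x : ℤ → Bool) : sh (-1) (up x) = sh 1 (up (sh (-1) x)) := by
  rw [← sh_two_up, self_sh_sh]
  rfl

theorem sh_pos_up (x : ℤ → Bool) : sh 1 (sh 1 (up x)) = up (sh 1 x) := by
  rw [← sh_two_up, self_sh_sh]
  rfl

theorem sh_neg_pos (x : ℤ → Bool) : sh (-1) (sh 1 x) = x := by
  rw [self_sh_sh]
  exact sh_zero' x

theorem sh_pos_neg (x : ℤ → Bool) : sh 1 (sh (-1) x) = x := by
  rw [self_sh_sh]
  exact sh_zero' x

theorem s_phi (h1 : S_P) (h2 : S_updn) : S_phi := by
  intro x hx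
  obtain ⟨hsh, hu, hd, hPu, hdu, hdu1, hxx⟩ := h2 x hx
  obtain ⟨-, hPs, -⟩ := h2 x hx
  have hP1 : P (sh 1 (up x)) = false := by rw [(h1 _ hu).1, hPu]; rfl
  refine ⟨fun j => ?_, hd, fun j => ?_, ?_⟩
  · unfold fPhi
    split_ifs
    · exact hu
    · exact inM_sh hu 1
  · unfold fPhi
    split_ifs with h
    · unfold fPsi
      rw [hdu, hPu]
      have h' : j = P x := by simpa using h
      rw [h']
      simp
    · unfold fPsi
      rw [hdu1, hP1]
      have h' : j = !P x := by
        revert h
        cases j <;> cases P x <;> simp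
      rw [h']
      simp
  · show fPhi (dn x) (P x == P (dn x)) = x
    unfold fPhi
    cases hp : P x
    · rw [hp] at hxx
      have h3 : ((false == P (dn x)) == P (dn x)) = false := by cases P (dn x) <;> rfl
      rw [h3]
      exact hxx.symm
    · rw [hp] at hxx
      have h3 : ((true == P (dn x)) == P (dn x)) = true := by cases P (dn x) <;> rfl
      rw [h3]
      exact hxx.symm

theorem lab_fb (h1 : S_P) {x : ℤ → Bool} (hx : InM x) : lab (fb x) = lab x := by
  obtain ⟨ha, hb, -, -⟩ := h1 x hx
  cases hp : P x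
  · have h3 : fb x = sh 1 x := by simp [fb, hp]
    rw [hp] at ha
    rw [h3]
    unfold lab
    rw [ha, hp]
    rfl
  · have h3 : fb x = sh (-1) x := by simp [fb, hp]
    rw [hp] at hb
    rw [h3]
    unfold lab
    rw [hb, hp]
    rfl

theorem s_inv (h1 : S_P) (_h2 : S_updn) : S_inv := by
  intro x hx
  obtain ⟨ha, hb, -, -⟩ := h1 x hx
  have hA : InM (fa x) := by unfold fa; split_ifs <;> exact inM_sh hx _
  have hB : InM (fb x) := by unfold fb; split_ifs <;> exact inM_sh hx _
  have hC : InM (fc x) := by
    unfold fc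
    split_ifs
    · exact hB
    · exact hx
  have hD : InM (fd x) := by
    unfold fd
    split_ifs
    · exact hx
    · exact hB
  have hbb : fb (fb x) = x := by
    cases hp : P x
    · rw [hp] at ha
      have h3 : fb x = sh 1 x := by simp [fb, hp]
      rw [h3]
      unfold fb
      rw [ha]
      exact sh_neg_pos x
    · rw [hp] at hb
      have h3 : fb x = sh (-1) x := by simp [fb, hp]
      rw [h3]
      unfold fb
      rw [hb]
      exact sh_pos_neg x
  have haa : fa (fa x) = x := by
    cases hp : P x
    · rw [hp] at hb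
      have h3 : fa x = sh (-1) x := by simp [fa, hp]
      rw [h3]
      unfold fa
      rw [hb]
      exact sh_pos_neg x
    · rw [hp] at ha
      have h3 : fa x = sh 1 x := by simp [fa, hp]
      rw [h3]
      unfold fa
      rw [ha]
      exact sh_neg_pos x
  have hl := lab_fb h1 hx
  refine ⟨⟨hA, hB, hC, hD⟩, haa, hbb, ?_, ?_, ?_, ?_⟩
  · cases hq : lab x
    · have h3 : fc x = x := by simp [fc, hq]
      rw [h3, h3]
    · have h3 : fc x = fb x := by simp [fc, hq]
      rw [h3]
      unfold fc
      rw [hl, hq]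
      exact hbb
  · cases hq : lab x
    · have h3 : fd x = fb x := by simp [fd, hq]
      rw [h3]
      unfold fd
      rw [hl, hq]
      exact hbb
    · have h3 : fd x = x := by simp [fd, hq]
      rw [h3, h3]
  · cases hq : lab x
    · simp [fc, fd, hq]
    · simp [fc, fd, hq, hbb]
  · unfold fc fd
    rw [hl]
    cases hq : lab x
    · rfl
    · exact hbb

theorem s_self (h1 : S_P) (h2 : S_updn) : S_self := by
  intro x hx
  obtain ⟨hsh, hu, hd, hPu, hdu, hdu1, hxx⟩ := h2 x hx
  obtain ⟨ha, hb, hc, hd'⟩ := h1 x hx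
  have hP1 : P (sh 1 (up x)) = false := by rw [(h1 _ hu).1, hPu]; rfl
  have e1 : up x 1 = !x 0 := self_up_odd x 0
  have e2 : up x 2 = x 1 := self_up_even x 1
  have e0 : up x 0 = x 0 := self_up_even x 0
  have em : up x (-1) = !x (-1) := by
    have h := self_up_odd x (-1)
    rw [show (2 * (-1) + 1 : ℤ) = -1 by norm_num] at h
    exact h
  -- the map a
  have hfa : ∀ j, fa (fPhi x j) = fPhi x (!j) := by
    intro j
    unfold fPhi
    cases hj : (j == P x)
    · have h3 : ((!j) == P x) = true := by revert hj; cases j <;> cases P x <;> simp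
      rw [h3]
      unfold fa
      simp only [Bool.false_eq_true, if_false, if_true]
      rw [hP1]
      exact sh_neg_pos _
    · have h3 : ((!j) == P x) = false := by revert hj; cases j <;> cases P x <;> simp
      rw [h3]
      unfold fa
      simp only [Bool.false_eq_true, if_false, if_true]
      rw [hPu]
      rfl
  have hlx : ∀ j, j = P x → fPhi x j = up x := fun j h => by
    unfold fPhi
    rw [h]
    simp
  have hln : ∀ j, (j = !P x) → fPhi x j = sh 1 (up x) := fun j h => by
    unfold fPhi
    rw [h]
    cases P x <;> rfl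
  have hfbu : fb (up x) = sh 1 (up (sh (-1) x)) := by
    unfold fb
    rw [hPu]
    exact sh_neg_up x
  have hfbs : fb (sh 1 (up x)) = up (sh 1 x) := by
    unfold fb
    rw [hP1]
    exact sh_pos_up x
  have hlu : lab (up x) = ((!x (-1)) == x 0) := by
    unfold lab
    rw [hPu]
    simp only [if_true]
    rw [em, e0]
  have hls : lab (sh 1 (up x)) = ((!x 0) == x 1) := by
    unfold lab
    rw [hP1]
    simp only [Bool.false_eq_true, if_false]
    show (up x 1 == up x 2) = _
    rw [e1, e2]
  have hfb0 : fb (fPhi x false) = fPhi (fa x) false := by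
    cases hp : P x
    · rw [hlx false hp.symm, hfbu]
      rw [hp] at hb
      have h3 : fa x = sh (-1) x := by simp [fa, hp]
      rw [h3]
      unfold fPhi
      rw [hb]
      rfl
    · rw [hln false (by rw [hp]; rfl), hfbs]
      rw [hp] at ha
      have h3 : fa x = sh 1 x := by simp [fa, hp]
      rw [h3]
      unfold fPhi
      rw [ha]
      rfl
  have hfb1 : fb (fPhi x true) = fPhi (fb x) true := by
    cases hp : P x
    · rw [hln true (by rw [hp]; rfl), hfbs]
      rw [hp] at ha
      have h3 : fb x = sh 1 x := by simp [fb, hp]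
      rw [h3]
      unfold fPhi
      rw [ha]
      rfl
    · rw [hlx true hp.symm, hfbu]
      rw [hp] at hb
      have h3 : fb x = sh (-1) x := by simp [fb, hp]
      rw [h3]
      unfold fPhi
      rw [hb]
      rfl
  have hlab0 : lab (fPhi x false) = true := by
    cases hp : P x
    · rw [hlx false hp.symm, hlu]
      have h3 := hd' hp 0
      have h4 : x 0 = !x (-1) := h3
      rw [h4]
      simp
    · rw [hln false (by rw [hp]; rfl), hls]
      have h3 := hc hp 0
      have h4 : x 1 = !x 0 := h3
      rw [h4]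
      simp
  have hlab1 : lab (fPhi x true) = !lab x := by
    cases hp : P x
    · rw [hln true (by rw [hp]; rfl), hls]
      unfold lab
      rw [hp]
      simp only [Bool.false_eq_true, if_false]
      cases x 0 <;> cases x 1 <;> rfl
    · rw [hlx true hp.symm, hlu]
      unfold lab
      rw [hp]
      simp only [if_true]
      cases x (-1) <;> cases x 0 <;> rfl
  refine ⟨hfa, hfb0, hfb1, ?_, ?_, ?_, ?_⟩
  · unfold fc
    rw [hlab0]
    exact hfb0
  · unfold fc
    rw [hlab1]
    unfold fd
    cases hq : lab x
    · exact hfb1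
    · rfl
  · unfold fd
    rw [hlab0]
    rfl
  · unfold fd
    rw [hlab1]
    unfold fc
    cases hq : lab x
    · rfl
    · exact hfb1

end Pool.Agent.J6H54.MG
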