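import Mathlib

/-!
# A subgroup of intermediate growth in the full group of the Thue-Morse subshift: statements

The abstract part: four permutations `a, b, c, d` of a set `X` with a bijection `Φ : X × Bool ≃ X`,
`a = swap`, `b = (a, b)`, `c = (a, d)`, `d = (1, c)` (first entry: the branch `false`), `b² = c² = 1`,
`bc = cb = d`. The group generated by them has intermediate growth.
The second part: such permutations in the full group of the Thue-Morse subshift.
-/

set_option autoImplicit false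

open scoped Pointwise
open Filter Topology

namespace Pool.Agent.J6H54.MG

/-- the elements `1, b, c, d` -/
inductive V : Type where
  | e | b | c | d
deriving DecidableEq

instance : Fintype V := ⟨{V.e, V.b, V.c, V.d}, fun x => by cases x <;> simp⟩

namespace V

/-- the product of the Klein four-group -/
def mul : V → V → V
  | e, v => v
  | v, e => v
  | b, b => e
  | c, c => e
  | d, d => e
  | b, c => d
  | c, b => d
  | b, d => c
  | d, b => c
  | c, d => b
  | d, c => b

/-- the weights -/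
def wt : V → ℕ
  | e => 0
  | b => 4
  | c => 3
  | d => 2

/-- the section on the branch `true` -/
def s1 : V → V
  | e => e
  | b => b
  | c => d
  | d => c

/-- is the section on the branch `false` equal to `a`? (otherwise it is `1`) -/
def s0 : V → Bool
  | e => false
  | b => true
  | c => true
  | d => false

end V

/-- the weight of the word `u (a v₁) (a v₂) …` -/
def W (u : V) (L : List V) : ℕ := u.wt + (L.map fun v => 2 + v.wt).sum

/-- the number of letters different from `b` -/
def nonb (L : List V) : ℕ := L.countP (fun v => decide (v ≠ V.b))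

/-- The self-similar structure. -/
structure Sys (X : Type) where
  a : Equiv.Perm X
  b : Equiv.Perm X
  c : Equiv.Perm X
  d : Equiv.Perm X
  Φ : X × Bool ≃ X
  a_eq : ∀ x j, a (Φ (x, j)) = Φ (x, !j)
  b0 : ∀ x, b (Φ (x, false)) = Φ (a x, false)
  b1 : ∀ x, b (Φ (x, true)) = Φ (b x, true)
  c0 : ∀ x, c (Φ (x, false)) = Φ (a x, false)
  c1 : ∀ x, c (Φ (x, true)) = Φ (d x, true)
  d0 : ∀ x, d (Φ (x, false)) = Φ (x, false)
  d1 : ∀ x, d (Φ (x, true)) = Φ (c x, true)
  bb : b * b = 1
  cc : c * c = 1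
  bc : b * c = d
  cb : c * b = d

namespace Sys
variable {X : Type} (Y : Sys X)

/-- the value of a letter -/
def val : V → Equiv.Perm X
  | .e => 1
  | .b => Y.b
  | .c => Y.c
  | .d => Y.d

/-- `(a v₁) (a v₂) …` -/
def ev (L : List V) : Equiv.Perm X := (L.map fun v => Y.a * Y.val v).prod

/-- the elements given by a word of weight at most `n` -/
def Q (n : ℕ) : Set (Equiv.Perm X) := {g | ∃ u L, W u L ≤ n ∧ g = Y.val u * Y.ev L}

/-- the generators -/
def gen : Set (Equiv.Perm X) := {Y.a, Y.b, Y.c, Y.d}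

/-- the permutation acting as `g` on the branch `false` and as `h` on the branch `true` -/
def pr (g h : Equiv.Perm X) : Equiv.Perm X :=
  Y.Φ.permCongr
    { toFun := fun p => ((if p.2 then h else g) p.1, p.2)
      invFun := fun p => ((if p.2 then h else g).symm p.1, p.2)
      left_inv := fun p => by simp
      right_inv := fun p => by simp }

end Sys

/-- `pr` is an injective homomorphism. Proof: direct. -/
def S_pr : Prop := ∀ {X : Type} (Y : Sys X),
  (∀ g h x, Y.pr g h (Y.Φ (x, false)) = Y.Φ (g x, false) ∧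
    Y.pr g h (Y.Φ (x, true)) = Y.Φ (h x, true)) ∧
  (∀ g g' h h', Y.pr (g * g') (h * h') = Y.pr g h * Y.pr g' h') ∧
  (∀ g h, Y.pr g h = 1 → g = 1 ∧ h = 1)

/-- **contraction**. Proof. Induction on `L`, for states `(u, L)`: first treat `ev L` (with `u` the letter
`e`), with the bound `W u0 L0 + W u1 L1 + nonb L ≤ W e L`: the word of the section on a branch is a
state `(v, M)`, meaning `val v * ev M`; multiplying on the left by a letter `w` of the four-group gives
`(w * v, M)`, and multiplying by `a` gives `(e, v :: M)`. For `L = v :: L'` the branch `j` is mapped by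
`ev L'` to a branch `j'`, and then `v` contributes the section `v.s1` if `j' = true`, and `a` or `1`
according to `v.s0` if `j' = false`; the final `a` changes the branch. One of the two branches gets `v.s1`,
the other `v.s0`, so that the sum of the weights grows by at most `4 + 2` for `b`, `2 + 2` for `c`,
`3` for `d`, `0` for `e`, which is `2 + v.wt` for `b`, one less for `c`, `d`, two less for `e`
(`(w.mul v).wt ≤ w.wt + v.wt`). At the end the letter `u` costs at most `u.wt + 2`. -/
def S_contr : Prop := ∀ {X : Type} (Y : Sys X) (u : V) (L : List V),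
  ∃ (p : Bool) (u0 u1 : V) (L0 L1 : List V), W u0 L0 + W u1 L1 + nonb L ≤ W u L + 2 ∧
    ∀ x, (Y.val u * Y.ev L) (Y.Φ (x, false)) = Y.Φ ((Y.val u0 * Y.ev L0) x, p) ∧
      (Y.val u * Y.ev L) (Y.Φ (x, true)) = Y.Φ ((Y.val u1 * Y.ev L1) x, !p)

/-- **few letters different from `b`**. Proof: `W u L ≤ n` implies `L.length ≤ n`; for every length `k` the
sum of `z ^ (nonb L)` over the lists of length `k` is `(1 + 3 z) ^ k` (induction on `k`), and each list with
`nonb L < m` contributes at least `z ^ m`; there are `4` letters `u` and `n + 1` lengths. -/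
def S_count : Prop := ∀ (m n : ℕ), {p : V × List V | W p.1 p.2 ≤ n ∧ nonb p.2 < m}.Finite ∧
  ∀ z : ℝ, 0 < z → z < 1 →
    (({p : V × List V | W p.1 p.2 ≤ n ∧ nonb p.2 < m}.ncard : ℕ) : ℝ) * z ^ m ≤
      4 * (n + 1) * (1 + 3 * z) ^ n

/-- Proof: `W u L ≤ n` implies `L.length ≤ n`, finitely many words; `4 * ∑_{k ≤ n} 4 ^ k ≤ 4 ^ (n + 2)`.
The generators change the weight of a word by at most `4` (`a (u, L) = (e, u :: L)`,
`v (u, L) = (v * u, L)`), and `1 ∈ Q 0`. -/
def S_Q : Prop := ∀ {X : Type} (Y : Sys X), (∀ n, (Y.Q n).Finite) ∧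
  (∀ n, (Y.Q n).ncard ≤ 4 ^ (n + 2)) ∧
  ∀ n, (Y.gen ∪ Y.gen⁻¹ ∪ {1}) ^ n ⊆ Y.Q (4 * n)

/-- **the recursion**. Proof: an element of `Q n` has a word `(u, L)` of weight `≤ n` with `nonb L < m`
(these elements are the images of the set in `S_count`), or with `nonb L ≥ m`; in this case it is
determined by `p` and the two elements of `S_contr`, which lie in `Q i` and `Q (n + 2 - m - i)` for some
`i ≤ n + 2 - m` (`Q` is monotone; if `m > n + 2` there is no such element). -/
def S_rec : Prop := ∀ {X : Type} (Y : Sys X) (m n : ℕ),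
  (Y.Q n).ncard ≤ {p : V × List V | W p.1 p.2 ≤ n ∧ nonb p.2 < m}.ncard +
    (if m ≤ n + 2 then 2 * ∑ i ∈ Finset.range (n + 3 - m), (Y.Q i).ncard * (Y.Q (n + 2 - m - i)).ncard
      else 0)

/-- **analysis**. Proof. Let `λ` be the infimum of the `μ ≥ 1` for which there is `C` with
`q n ≤ C μ ^ n` for all `n` (the set is not empty). If `λ > 1`: choose `ν < λ`, `ν > 1`, then `z` with
`1 + 3 z < √ν`, then `ε ∈ (0, 1)` with `z ^ (-ε) < √ν`, then `μ > λ` in the set with
`μ ^ (1 - ε) < λ`; for `m = ⌊ε n⌋` the hypothesis gives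
`q n ≤ 4 (n+1) z ^ (- ε n) (1 + 3 z) ^ n + 2 (n + 3) C² μ ^ (n + 3 - ε n)`, which is at most `C' ρ ^ n` for
every `ρ` with `max (ν, μ ^ (1 - ε)) < ρ`; take `ρ < λ`, a contradiction. -/
def S_ana : Prop := ∀ (q : ℕ → ℕ), (∀ n, q n ≤ 4 ^ (n + 2)) →
  (∀ (m n : ℕ) (z : ℝ), 0 < z → z < 1 → (q n : ℝ) ≤ 4 * (n + 1) * (1 + 3 * z) ^ n / z ^ m +
    (if m ≤ n + 2 then 2 * ∑ i ∈ Finset.range (n + 3 - m), (q i : ℝ) * q (n + 2 - m - i) else 0)) →
  ∀ μ : ℝ, 1 < μ → ∃ C : ℝ, ∀ n, (q n : ℝ) ≤ C * μ ^ n

/-- the number of elements of length at most `n` -/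
noncomputable def ball {G : Type} [Group G] (S : Set G) (n : ℕ) : ℕ := ((S ∪ S⁻¹ ∪ {1}) ^ n).ncard

/-- faster than every polynomial and slower than every exponential function -/
def Intermediate {G : Type} [Group G] (S : Set G) : Prop :=
  (∀ d : ℕ, Tendsto (fun n : ℕ => (ball S n : ℝ) / (n : ℝ) ^ d) atTop atTop) ∧
  ∀ c : ℝ, 0 < c → Tendsto (fun n : ℕ => (ball S n : ℝ) / Real.exp (c * n)) atTop (𝓝 0)

/-- Proof: `ball ≤ (Q (4 n)).ncard ≤ C μ ^ (4 n)` with `μ ^ 4 < e ^ c` (from `S_Q`, `S_rec`, `S_count`,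
`S_ana`). -/
def S_up : Prop := ∀ {X : Type} (Y : Sys X), ∀ c : ℝ, 0 < c →
  Tendsto (fun n : ℕ => (ball Y.gen n : ℝ) / Real.exp (c * n)) atTop (𝓝 0)

/-- **the branching subgroup**. Proof: `K` is the normal closure in `⟨a, b, c, d⟩` of `(a c)²` (as a subgroup
of `Equiv.Perm X`: the closure of all `h (a c)² h⁻¹`, `h ∈ closure gen`).
(1) `pr (a c a c) 1` is the commutator of `a d a = pr c 1` and `b = pr a b`. In `⟨a,b,c,d⟩/K` the element `c`
commutes with `a` and with `b, d`, so it is central, `a d a = a b a c`, and the commutator becomes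
`(a b)⁴` (as `c² = 1`); moreover `(a d)⁴ = 1` (`(a d)² = pr c c`) gives `(a b)⁴ = (a b c)⁴ = 1`
modulo `K`. So `(a b)⁴ ∈ K` and `pr (a c a c) 1 ∈ K`.
(2) every `h ∈ closure gen` is the section on `false` of an element of `closure gen` which
preserves the branches: `b = pr a b`, `a b a = pr b a`, `a d a = pr c 1`, `a c a = pr d a`; so
`pr (h k h⁻¹) 1 = g (pr k 1) g⁻¹` for `g = pr h h'` in `closure gen`.
(3) `a b` has infinite order: `(a b)² = pr (b a) (a b)`, and odd powers of `a b` exchange the branches; if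
`(a b) ^ n = 1` with `n > 0` minimal then `n = 2 m` and `(b a) ^ m = 1`, so `(a b) ^ m = 1`. -/
def S_K : Prop := ∀ {X : Type} [Nonempty X] (Y : Sys X), ∃ K : Subgroup (Equiv.Perm X),
  K ≤ Subgroup.closure Y.gen ∧ (∀ g ∈ K, Y.pr g 1 ∈ K) ∧ (∀ g ∈ K, Y.a * g * Y.a⁻¹ ∈ K) ∧
  ∃ z ∈ K, ∀ n : ℤ, z ^ n = 1 → n = 0

/-- **free abelian subgroups**. Proof: induction on `N`, with values in `K` (`S_K`):
`f' v = pr (f (v restricted)) (z ^ (v last))`, and `pr 1 h = a (pr h 1) a⁻¹`; `S_pr`. -/
def S_Z : Prop := ∀ {X : Type} [Nonempty X] (Y : Sys X) (N : ℕ),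
  ∃ f : Multiplicative (Fin N → ℤ) →* Equiv.Perm X, Function.Injective f ∧
    ∀ v, f v ∈ Subgroup.closure Y.gen

/-- **growth of groups with free abelian subgroups of all ranks**. Proof: take `N = d + 1`, let `l ≥ 1` be a
bound for the lengths of the images `z_i` of the basis vectors; the elements `∏ z_i ^ e_i`,
`0 ≤ e_i ≤ r`, have length `≤ r N l`, so that `ball S n ≥ (n / (N l)) ^ N` (real division, with
`r = n / (N l)`). -/
def S_low : Prop := ∀ {G : Type} [Group G] (S : Set G), S.Finite →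
  (∀ N : ℕ, ∃ f : Multiplicative (Fin N → ℤ) →* G, Function.Injective f ∧
    ∀ v, f v ∈ Subgroup.closure S) →
  ∀ d : ℕ, Tendsto (fun n : ℕ => (ball S n : ℝ) / (n : ℝ) ^ d) atTop atTop

/-! ### The Thue-Morse subshift -/

/-- the substitution `0 ↦ 01`, `1 ↦ 10` on words -/
def sub (w : List Bool) : List Bool := w.flatMap fun x => [x, !x]

/-- the words which occur in some `σ ^ n (a)` -/
def Lang (w : List Bool) : Prop := ∃ (a : Bool) (n : ℕ), 1 ≤ n ∧ w <:+: sub^[n] [a]

/-- the word `x_i … x_(i + n - 1)` -/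
def window (x : ℤ → Bool) (i : ℤ) (n : ℕ) : List Bool := (List.range n).map fun k => x (i + k)

/-- all finite subwords are in the language -/
def InM (x : ℤ → Bool) : Prop := ∀ i n, Lang (window x i n)

/-- the Thue-Morse sequence -/
def tm (n : ℕ) : Bool := decide ((Nat.digits 2 n).sum % 2 = 1)

/-- Proof: binary digits. -/
def S_tm : Prop := ∀ n, tm (2 * n) = tm n ∧ tm (2 * n + 1) = !tm n

/-- Proof: `sub^[n] [a]` has length `2 ^ n` and entries `xor a (tm i)`, by induction with `S_tm`
(`sub^[n+1] [a] = sub (sub^[n] [a])`, or `sub^[n + 1] [a] = sub^[n] [a] ++ sub^[n] [!a]`), so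
`sub^[n] [false]` is the prefix of length `2 ^ n` and `sub^[n] [true]` is in the prefix of length
`2 ^ (n + 1)`. -/
def S_lang : Prop := ∀ x : ℤ → Bool,
  InM x ↔ ∀ (i : ℤ) (n : ℕ), ∃ k : ℕ, ∀ j : ℕ, j < n → x (i + j) = tm (k + j)

/-- the shifts -/
def sh (m : ℤ) (x : ℤ → Bool) : ℤ → Bool := fun n => x (n + m)

/-- `true` if `x_0 x_1` is a block `01` or `10` -/
def P (x : ℤ → Bool) : Bool := (x 1 == x 2) || (x 3 == x 4)

/-- the substitution on two-sided sequences -/
def up (x : ℤ → Bool) : ℤ → Bool := fun n => xor (x (n / 2)) (decide (n % 2 = 1))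

/-- the first letters of the blocks; the block number `0` contains the position `0` -/
def dn (x : ℤ → Bool) : ℤ → Bool := fun k => x (2 * k - if P x then 0 else 1)

/-- Proof (with `S_lang`, `S_tm`): `tm n = tm (n + 1)` implies that `n` is odd, as
`tm (2 k) ≠ tm (2 k + 1)`. So (comparing with a long window of `tm`) the places `n` with
`x n = x (n + 1)` have the same parity. There is one such place in `{n, n+1, n+2, n+3}`:
otherwise four consecutive pairs of letters of `tm` are different, so `tm k = tm (k + 1) = tm (k + 2)` for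
some `k`, a contradiction. -/
def S_par : Prop := ∀ x : ℤ → Bool, InM x →
  (∀ m n : ℤ, x m = x (m + 1) → x n = x (n + 1) → Even (m - n)) ∧
  ∀ n : ℤ, ∃ j : ℤ, 0 ≤ j ∧ j < 4 ∧ x (n + j) = x (n + j + 1)

/-- Proof: from `S_par`. -/
def S_P : Prop := ∀ x : ℤ → Bool, InM x → P (sh 1 x) = !P x ∧ P (sh (-1) x) = !P x ∧
  (P x = true → ∀ k : ℤ, x (2 * k + 1) = !x (2 * k)) ∧
  (P x = false → ∀ k : ℤ, x (2 * k) = !x (2 * k - 1))

/-- Proof: `S_lang`, `S_tm` (window of `up x` of length `n` in position `i`: take the window of `x` of length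
`n + 2` in position `i / 2`, in `tm` at `k`, then `tm` at `2 k + i % 2`); `P (up x) = true`: there is no
`k` with `up x (2 k) = up x (2 k + 1)`, use `S_par` for `up x`. For `dn`: a window of `x` of length
`2 n + 6` at `2 i - (0 or 1)` is a window of `tm` at some `k`, and `k` is even: the window contains a place
with `x m = x (m + 1)` (`S_par`), and `tm` has equal neighbours only at odd places. -/
def S_updn : Prop := ∀ x : ℤ → Bool, InM x → (∀ m, InM (sh m x)) ∧ InM (up x) ∧ InM (dn x) ∧
  P (up x) = true ∧ dn (up x) = x ∧ dn (sh 1 (up x)) = x ∧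
  x = (if P x then up (dn x) else sh 1 (up (dn x)))

/-- the label of the second edge: `true` if the two letters are equal -/
def lab (x : ℤ → Bool) : Bool := if P x then x (-1) == x 0 else x 0 == x 1

/-- the four maps -/
def fa (x : ℤ → Bool) : ℤ → Bool := if P x then sh 1 x else sh (-1) x
/-- the four maps -/
def fb (x : ℤ → Bool) : ℤ → Bool := if P x then sh (-1) x else sh 1 x
/-- the four maps -/
def fc (x : ℤ → Bool) : ℤ → Bool := if lab x then fb x else x
/-- the four maps -/
def fd (x : ℤ → Bool) : ℤ → Bool := if lab x then x else fb x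

/-- the bijection -/
def fPhi (x : ℤ → Bool) (j : Bool) : ℤ → Bool := if j == P x then up x else sh 1 (up x)
/-- its inverse -/
def fPsi (x : ℤ → Bool) : (ℤ → Bool) × Bool := (dn x, P x == P (dn x))

/-- Proof: from `S_P`, `S_updn`; cases on `P x`. -/
def S_phi : Prop := ∀ x : ℤ → Bool, InM x → (∀ j, InM (fPhi x j)) ∧ InM (dn x) ∧
  (∀ j, fPsi (fPhi x j) = (x, j)) ∧ fPhi (fPsi x).1 (fPsi x).2 = x

/-- Proof: from `S_P`, `S_updn`: `sh (-1) (up x) = sh 1 (up (sh (-1) x))`, `sh 2 (up x) = up (sh 1 x)`;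
in `up x` the letters `2 k - 1`, `2 k` are `!x (k - 1)`, `x k`; cases on `P x` and `j`; if `P x` then
`x 0 ≠ x 1`, otherwise `x (-1) ≠ x 0`. -/
def S_self : Prop := ∀ x : ℤ → Bool, InM x →
  (∀ j, fa (fPhi x j) = fPhi x (!j)) ∧
  fb (fPhi x false) = fPhi (fa x) false ∧ fb (fPhi x true) = fPhi (fb x) true ∧
  fc (fPhi x false) = fPhi (fa x) false ∧ fc (fPhi x true) = fPhi (fd x) true ∧
  fd (fPhi x false) = fPhi x false ∧ fd (fPhi x true) = fPhi (fc x) true

/-- Proof: from `S_P`, `S_updn`. -/
def S_inv : Prop := ∀ x : ℤ → Bool, InM x →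
  (InM (fa x) ∧ InM (fb x) ∧ InM (fc x) ∧ InM (fd x)) ∧
  fa (fa x) = x ∧ fb (fb x) = x ∧ fc (fc x) = x ∧ fd (fd x) = x ∧ fb (fc x) = fd x ∧
  fc (fb x) = fd x

/-- the Thue-Morse subshift -/
abbrev Morse : Type := {x : ℤ → Bool // InM x}

/-- the shift of a two-sided sequence is in the subshift -/
theorem inM_sh {x : ℤ → Bool} (hx : InM x) (m : ℤ) : InM (sh m x) := by
  intro i n
  have h : window (sh m x) i n = window x (i + m) n := by
    simp only [window, sh]
    refine List.map_congr_left fun k _ => ?_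
    congr 1
    ring
  rw [h]
  exact hx _ _

/-- the shift -/
def T : Morse ≃ₜ Morse where
  toFun x := ⟨sh 1 x.1, inM_sh x.2 1⟩
  invFun x := ⟨sh (-1) x.1, inM_sh x.2 (-1)⟩
  left_inv x := by
    ext n
    simp [sh]
  right_inv x := by
    ext n
    simp [sh]
  continuous_toFun := by
    refine Continuous.subtype_mk (continuous_pi fun n => ?_) _
    exact (continuous_apply (n + 1)).comp continuous_subtype_val
  continuous_invFun := by
    refine Continuous.subtype_mk (continuous_pi fun n => ?_) _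
    exact (continuous_apply (n + -1)).comp continuous_subtype_val

/-- the elements of the topological full group of a homeomorphism `T` -/
def IsFull {Z : Type} [TopologicalSpace Z] (T g : Z ≃ₜ Z) : Prop :=
  ∃ n : Z → ℤ, Continuous n ∧ ∀ x, g x = (T ^ n x) x

/-- the topological full group is a group. Proof: `n_(gh) (x) = n_g (h x) + n_h (x)`,
`n_(g⁻¹) (x) = - n_g (g⁻¹ x)`. -/
def S_full : Prop := ∀ {Z : Type} [TopologicalSpace Z] (T : Z ≃ₜ Z),
  ∃ F : Subgroup (Z ≃ₜ Z), ∀ g, g ∈ F ↔ IsFull T g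

/-- **the homeomorphisms**. Proof: `S_inv`; the maps are locally given by shifts (`P` and `lab` depend on
finitely many coordinates); `(T ^ m) x = sh m x`. -/
def S_homeo : Prop := ∃ a b c d : Morse ≃ₜ Morse,
  (∀ x, (a x).1 = fa x.1 ∧ (b x).1 = fb x.1 ∧ (c x).1 = fc x.1 ∧ (d x).1 = fd x.1) ∧
  IsFull T a ∧ IsFull T b ∧ IsFull T c ∧ IsFull T d

/-- **the self-similar structure**. Proof: `S_homeo`, `S_phi`, `S_self`, `S_inv`. -/
def S_sys : Prop := ∃ (a b c d : Morse ≃ₜ Morse) (Y : Sys Morse),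
  IsFull T a ∧ IsFull T b ∧ IsFull T c ∧ IsFull T d ∧
  Y.a = a.toEquiv ∧ Y.b = b.toEquiv ∧ Y.c = c.toEquiv ∧ Y.d = d.toEquiv

/-- the subshift is not empty. Proof: compactness, or explicitly: `x n = tm n` for `n ≥ 0` and
`x n = tm (- n - 1)` for `n < 0` (the window `[-2 ^ (2 m), 2 ^ (2 m))` of `x` is
`σ ^ (2 m) (0) σ ^ (2 m) (0)`, the reversal of `σ ^ (2 m) (0)` being itself), which is in `tm` at
`5 * 4 ^ m`, as `tm 5 = tm 6 = false`). -/
def S_ne : Prop := Nonempty Morse

/-- **the theorem**: for the Thue-Morse subshift the topological full group contains a finitely generated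
subgroup of intermediate growth. Proof: all of the above; the homomorphism from the homeomorphisms to the
permutations is injective and preserves the numbers `ball`. -/
def S_main : Prop := ∃ S : Set (Morse ≃ₜ Morse), S.Finite ∧ (∀ g ∈ Subgroup.closure S, IsFull T g) ∧
  Intermediate S

end Pool.Agent.J6H54.MG
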