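import Pool.Agent.J6H54.MG.Stm

/-! # Project MG: the self-similar structure on the Thue-Morse subshift -/

set_option autoImplicit false

namespace Pool.Agent.J6H54.MG

/-- the bijection -/
def PhiE (h2 : S_phi) : Morse × Bool ≃ Morse where
  toFun p := ⟨fPhi p.1.1 p.2, (h2 _ p.1.2).1 p.2⟩
  invFun x := (⟨(fPsi x.1).1, (h2 _ x.2).2.1⟩, (fPsi x.1).2)
  left_inv := by
    rintro ⟨x, j⟩
    have h := (h2 _ x.2).2.2.1 j
    have e1 := congrArg Prod.fst h
    have e2 := congrArg Prod.snd h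
    exact Prod.ext (Subtype.ext e1) e2
  right_inv := by
    intro x
    exact Subtype.ext (h2 _ x.2).2.2.2

theorem s_sys (h1 : S_homeo) (h2 : S_phi) (h3 : S_self) (h4 : S_inv) : S_sys := by
  obtain ⟨a, b, c, d, h, ha, hb, hc, hd⟩ := h1
  refine ⟨a, b, c, d, ?_⟩
  have hΦ : ∀ x j, ((PhiE h2 (x, j) : Morse) : ℤ → Bool) = fPhi x.1 j := fun _ _ => rfl
  refine ⟨{ a := a.toEquiv, b := b.toEquiv, c := c.toEquiv, d := d.toEquiv, Φ := PhiE h2
            a_eq := ?_, b0 := ?_, b1 := ?_, c0 := ?_, c1 := ?_, d0 := ?_, d1 := ?_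
            bb := ?_, cc := ?_, bc := ?_, cb := ?_ }, ha, hb, hc, hd, rfl, rfl, rfl, rfl⟩
  · intro x j
    refine Subtype.ext ?_
    exact ((h _).1).trans ((h3 _ x.2).1 j)
  · intro x
    refine Subtype.ext ?_
    refine ((h _).2.1).trans (((h3 _ x.2).2.1).trans ?_)
    rw [← (h x).1]; rfl
  · intro x
    refine Subtype.ext ?_
    refine ((h _).2.1).trans (((h3 _ x.2).2.2.1).trans ?_)
    rw [← (h x).2.1]; rfl
  · intro x
    refine Subtype.ext ?_
    refine ((h _).2.2.1).trans (((h3 _ x.2).2.2.2.1).trans ?_)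
    rw [← (h x).1]; rfl
  · intro x
    refine Subtype.ext ?_
    refine ((h _).2.2.1).trans (((h3 _ x.2).2.2.2.2.1).trans ?_)
    rw [← (h x).2.2.2]; rfl
  · intro x
    refine Subtype.ext ?_
    exact ((h _).2.2.2).trans ((h3 _ x.2).2.2.2.2.2.1)
  · intro x
    refine Subtype.ext ?_
    refine ((h _).2.2.2).trans (((h3 _ x.2).2.2.2.2.2.2).trans ?_)
    rw [← (h x).2.2.1]; rfl
  · refine Equiv.ext fun x => Subtype.ext ?_
    show (b (b x)).1 = x.1
    rw [(h _).2.1, (h _).2.1]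
    exact (h4 _ x.2).2.2.1
  · refine Equiv.ext fun x => Subtype.ext ?_
    show (c (c x)).1 = x.1
    rw [(h _).2.2.1, (h _).2.2.1]
    exact (h4 _ x.2).2.2.2.1
  · refine Equiv.ext fun x => Subtype.ext ?_
    show (b (c x)).1 = (d x).1
    rw [(h _).2.1, (h _).2.2.1, (h _).2.2.2]
    exact (h4 _ x.2).2.2.2.2.2.1
  · refine Equiv.ext fun x => Subtype.ext ?_
    show (c (b x)).1 = (d x).1
    rw [(h _).2.2.1, (h _).2.1, (h _).2.2.2]
    exact (h4 _ x.2).2.2.2.2.2.2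

end Pool.Agent.J6H54.MG
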