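import Pool.Agent.J6H54.MG.Stm

/-! Project MG, module UP: the upper bound (helper73). -/

set_option autoImplicit false

open scoped Pointwise
open Filter Topology

namespace Pool.Agent.J6H54.MG

theorem s_up (h1 : S_Q) (h2 : S_rec) (h3 : S_count) (h4 : S_ana) : S_up := by
  intro X Y c hc
  obtain ⟨hfin, hcard, hsub⟩ := h1 Y
  have hμ : (1 : ℝ) < Real.exp (c / 8) := Real.one_lt_exp_iff.2 (by positivity)
  obtain ⟨C, hC⟩ := h4 (fun n => (Y.Q n).ncard) hcard (by
    intro m n z hz hz1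
    have e1 := h2 Y m n
    have e2 := (h3 m n).2 z hz hz1
    have e3 : (({p : V × List V | W p.1 p.2 ≤ n ∧ nonb p.2 < m}.ncard : ℕ) : ℝ) ≤
        4 * (n + 1) * (1 + 3 * z) ^ n / z ^ m := by
      rw [le_div_iff₀ (by positivity)]
      exact e2
    have e4 : ((Y.Q n).ncard : ℝ) ≤ (({p : V × List V | W p.1 p.2 ≤ n ∧ nonb p.2 < m}.ncard : ℕ) : ℝ) +
        ((if m ≤ n + 2 then 2 * ∑ i ∈ Finset.range (n + 3 - m), (Y.Q i).ncard * (Y.Q (n + 2 - m - i)).ncard
      else 0 : ℕ) : ℝ) := by exact_mod_cast e1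
    refine e4.trans (add_le_add e3 (le_of_eq ?_))
    split_ifs
    · push_cast
      rfl
    · simp) (Real.exp (c / 8)) hμ
  have hC0 : 0 ≤ C := by
    have := (Nat.cast_nonneg (α := ℝ) (Y.Q 0).ncard).trans (hC 0)
    simpa using this
  have hb : ∀ n : ℕ, (ball Y.gen n : ℝ) / Real.exp (c * n) ≤ C * Real.exp (-(c / 2)) ^ n := by
    intro n
    have e1 : (ball Y.gen n : ℝ) ≤ (Y.Q (4 * n)).ncard := by
      exact_mod_cast Set.ncard_le_ncard (hsub n) (hfin _)
    rw [div_le_iff₀ (Real.exp_pos _)]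
    refine (e1.trans (hC (4 * n))).trans (le_of_eq ?_)
    rw [← Real.exp_nat_mul, ← Real.exp_nat_mul, mul_assoc, ← Real.exp_add]
    congr 2
    push_cast
    ring
  have hlim : Tendsto (fun n : ℕ => C * Real.exp (-(c / 2)) ^ n) atTop (𝓝 0) := by
    have := (tendsto_pow_atTop_nhds_zero_of_lt_one (Real.exp_pos (-(c / 2))).le
      (Real.exp_lt_one_iff.2 (by linarith))).const_mul C
    simpa using this
  exact squeeze_zero (fun n => by positivity) hb hlim

end Pool.Agent.J6H54.MG
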