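import Pool.Agent.J6H54.MG.Stm

/-!
# Module MG-UPDN: desubstitution
-/

set_option autoImplicit false

namespace Pool.Agent.J6H54.MG

lemma up_even (x : ℤ → Bool) (k : ℤ) : up x (2 * k) = x k := by
  unfold up
  have h1 : 2 * k / 2 = k := by omega
  have h2 : ¬ (2 * k % 2 = 1) := by omega
  rw [h1, decide_eq_false h2, Bool.xor_false]

lemma up_odd (x : ℤ → Bool) (k : ℤ) : up x (2 * k + 1) = !x k := by
  unfold up
  have h1 : (2 * k + 1) / 2 = k := by omega
  have h2 : (2 * k + 1) % 2 = 1 := by omega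
  rw [h1, decide_eq_true h2, Bool.xor_true]

lemma tm_eq_odd (h1 : S_tm) {m : ℕ} (h : tm m = tm (m + 1)) : m % 2 = 1 := by
  by_contra hm
  have h2 : m = 2 * (m / 2) := by omega
  rw [h2, (h1 _).1, (h1 _).2] at h
  exact (Bool.eq_not.1 h) rfl

lemma inM_up (h1 : S_tm) (h2 : S_lang) {x : ℤ → Bool} (hx : InM x) : InM (up x) := by
  rw [h2]
  intro i n
  obtain ⟨k, hk⟩ := (h2 x).1 hx (i / 2) (n + 2)
  refine ⟨2 * k + (i % 2).toNat, fun j hj => ?_⟩
  have hr : (((i % 2).toNat : ℕ) : ℤ) = i % 2 := Int.toNat_of_nonneg (by omega)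
  set r : ℕ := (i % 2).toNat with hrdef
  have hr2 : r < 2 := by omega
  have hj' : (r + j) / 2 < n + 2 := by omega
  have h3 := hk ((r + j) / 2) hj'
  have e1 : i / 2 + (((r + j) / 2 : ℕ) : ℤ) = (i + j) / 2 := by omega
  rw [e1] at h3
  rcases Nat.mod_two_eq_zero_or_one (r + j) with h0 | h0
  · have e2 : i + (j : ℤ) = 2 * ((i + j) / 2) := by omega
    have e3 : 2 * k + r + j = 2 * (k + (r + j) / 2) := by omega
    rw [e3, (h1 _).1, ← h3, e2, up_even]
    congr 1
    omega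
  · have e2 : i + (j : ℤ) = 2 * ((i + j) / 2) + 1 := by omega
    have e3 : 2 * k + r + j = 2 * (k + (r + j) / 2) + 1 := by omega
    rw [e3, (h1 _).2, ← h3, e2, up_odd]
    congr 2
    omega

lemma P_up (h1 : S_tm) (h2 : S_lang) (h3 : S_par) (h4 : S_P) {x : ℤ → Bool} (hx : InM x) :
    P (up x) = true := by
  by_contra hP
  have hP' : P (up x) = false := by simpa using hP
  have h5 := (h4 (up x) (inM_up h1 h2 hx)).2.2.2 hP'
  have h6 : ∀ k : ℤ, x k = x (k + 1) := by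
    intro k
    have h7 := h5 (k + 1)
    have e : 2 * (k + 1) - 1 = 2 * k + 1 := by ring
    rw [up_even, e, up_odd, Bool.not_not] at h7
    exact h7.symm
  have h8 := (h3 x hx).1 0 1 (h6 0) (h6 1)
  have h9 : ¬ Even ((0 : ℤ) - 1) := by decide
  exact h9 h8

lemma dn_true {x : ℤ → Bool} (h : P x = true) (k : ℤ) : dn x k = x (2 * k) := by
  unfold dn
  rw [if_pos h, sub_zero]

lemma dn_false {x : ℤ → Bool} (h : P x = false) (k : ℤ) : dn x k = x (2 * k - 1) := by
  unfold dn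
  rw [if_neg (by rw [h]; exact Bool.false_ne_true)]

lemma inM_dn (h1 : S_tm) (h2 : S_lang) (h3 : S_par) (h4 : S_P) {x : ℤ → Bool} (hx : InM x) :
    InM (dn x) := by
  rw [h2]
  intro i n
  have key : ∃ δ : ℤ, (∀ k, dn x k = x (2 * k - δ)) ∧
      ∀ j : ℤ, x (2 * i - δ + j) = x (2 * i - δ + j + 1) → j % 2 = 1 := by
    rcases Bool.eq_false_or_eq_true (P x) with hP | hP
    · refine ⟨0, fun k => by rw [dn_true hP, sub_zero], fun j hj => ?_⟩
      by_contra hj2
      have h5 := (h4 x hx).2.2.1 hP (i + j / 2)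
      have e1 : 2 * i - 0 + j = 2 * (i + j / 2) := by omega
      rw [e1, h5] at hj
      exact (Bool.eq_not.1 hj) rfl
    · refine ⟨1, fun k => dn_false hP k, fun j hj => ?_⟩
      by_contra hj2
      have h5 := (h4 x hx).2.2.2 hP (i + j / 2)
      have e1 : 2 * i - 1 + j = 2 * (i + j / 2) - 1 := by omega
      have e2 : 2 * (i + j / 2) - 1 + 1 = 2 * (i + j / 2) := by omega
      rw [e1, e2, h5] at hj
      exact (Bool.eq_not.1 hj) rfl
  obtain ⟨δ, hd, hpar⟩ := key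
  obtain ⟨K, hK⟩ := (h2 x).1 hx (2 * i - δ) (2 * n + 6)
  obtain ⟨j, hj0, hj4, hj⟩ := (h3 x hx).2 (2 * i - δ)
  have hjo := hpar j hj
  obtain ⟨j', rfl⟩ := Int.eq_ofNat_of_zero_le hj0
  have h6 := hK j' (by omega)
  have h7 := hK (j' + 1) (by omega)
  have h8 : tm (K + j') = tm (K + j' + 1) := by
    rw [← h6, hj, add_assoc K j' 1, ← h7]
    congr 1
    push_cast
    ring
  have h9 := tm_eq_odd h1 h8
  refine ⟨K / 2, fun l hl => ?_⟩
  have h10 := hK (2 * l) (by omega)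
  have e1 : 2 * i - δ + ((2 * l : ℕ) : ℤ) = 2 * (i + l) - δ := by push_cast; ring
  have e2 : K + 2 * l = 2 * (K / 2 + l) := by omega
  rw [e1, e2, (h1 _).1] at h10
  rw [hd, h10]

/-- MODULE MG-UPDN -/
theorem s_updn (h1 : S_tm) (h2 : S_lang) (h3 : S_par) (h4 : S_P) : S_updn := by
  intro x hx
  have hPu := P_up h1 h2 h3 h4 hx
  refine ⟨inM_sh hx, inM_up h1 h2 hx, inM_dn h1 h2 h3 h4 hx, hPu, ?_, ?_, ?_⟩
  · funext k
    rw [dn_true hPu, up_even]
  · funext k
    have h5 : P (sh 1 (up x)) = false := by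
      rw [(h4 (up x) (inM_up h1 h2 hx)).1, hPu]
      rfl
    rw [dn_false h5]
    change up x (2 * k - 1 + 1) = x k
    rw [sub_add_cancel, up_even]
  · rcases Bool.eq_false_or_eq_true (P x) with hP | hP
    · rw [if_pos hP]
      funext n
      rcases Int.emod_two_eq_zero_or_one n with h0 | h0
      · obtain ⟨k, rfl⟩ : ∃ k, n = 2 * k := ⟨n / 2, by omega⟩
        rw [up_even, dn_true hP]
      · obtain ⟨k, rfl⟩ : ∃ k, n = 2 * k + 1 := ⟨n / 2, by omega⟩
        rw [up_odd, dn_true hP]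
        exact (h4 x hx).2.2.1 hP k
    · rw [if_neg (by rw [hP]; exact Bool.false_ne_true)]
      funext n
      change x n = up (dn x) (n + 1)
      rcases Int.emod_two_eq_zero_or_one n with h0 | h0
      · obtain ⟨k, rfl⟩ : ∃ k, n = 2 * k := ⟨n / 2, by omega⟩
        rw [up_odd, dn_false hP]
        exact (h4 x hx).2.2.2 hP k
      · obtain ⟨k, rfl⟩ : ∃ k, n = 2 * k - 1 := ⟨n / 2 + 1, by omega⟩
        rw [sub_add_cancel, up_even, dn_false hP]

end Pool.Agent.J6H54.MG
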