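import Pool.Agent.J6H54.MG.Stm

/-!
# Free abelian subgroups (module MG-Z)
-/

set_option autoImplicit false

namespace Pool.Agent.J6H54.MG


theorem pr_one_left (h1 : S_pr) {X : Type} (Y : Sys X) (h : Equiv.Perm X) :
    Y.pr 1 h = Y.a * Y.pr h 1 * Y.a⁻¹ := by
  rw [eq_mul_inv_iff_mul_eq]
  ext y
  obtain ⟨⟨x, j⟩, rfl⟩ := Y.Φ.surjective y
  have e := fun g k => (h1 Y).1 g k x
  rw [Equiv.Perm.mul_apply, Equiv.Perm.mul_apply, Y.a_eq]
  cases j
  · rw [(e h 1).1, Y.a_eq, Bool.not_false, (e 1 h).2]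
  · rw [(e h 1).2, Y.a_eq, Bool.not_true, (e 1 h).1]

theorem s_Z (h1 : S_pr) (h2 : S_K) : S_Z := by
  intro X _ Y N
  obtain ⟨K, hK, hpr, hconj, z, hz, hzz⟩ := h2 Y
  have key : ∀ N : ℕ, ∃ f : Multiplicative (Fin N → ℤ) →* Equiv.Perm X, Function.Injective f ∧
      ∀ v, f v ∈ K := by
    intro N
    induction N with
    | zero =>
      refine ⟨1, ?_, fun v => K.one_mem⟩
      intro v w _
      exact (Multiplicative.toAdd (α := Fin 0 → ℤ)).injective (Subsingleton.elim _ _)
    | succ N ih =>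
      obtain ⟨f, hf, hfK⟩ := ih
      let F : Multiplicative (Fin (N + 1) → ℤ) →* Equiv.Perm X := MonoidHom.mk'
        (fun v => Y.pr (f (Multiplicative.ofAdd fun i : Fin N => v.toAdd i.succ)) (z ^ (v.toAdd 0)))
        (fun v w => by
          rw [← (h1 Y).2.1, ← zpow_add, ← map_mul]
          rfl)
      refine ⟨F, ?_, fun v => ?_⟩
      · rw [injective_iff_map_eq_one]
        intro v hv
        obtain ⟨e1, e2⟩ := (h1 Y).2.2 _ _ hv
        have e3 := hzz _ e2
        have e4 := (injective_iff_map_eq_one f).1 hf _ e1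
        refine (Multiplicative.toAdd (α := Fin (N + 1) → ℤ)).injective ?_
        rw [toAdd_one]
        funext i
        refine Fin.cases ?_ (fun i => ?_) i
        · exact e3
        · exact congrFun (congrArg Multiplicative.toAdd e4) i
      · show Y.pr _ _ ∈ K
        have e : ∀ g h : Equiv.Perm X, Y.pr g h = Y.pr g 1 * Y.pr 1 h := fun g h => by
          rw [← (h1 Y).2.1, mul_one, one_mul]
        rw [e]
        refine K.mul_mem (hpr _ (hfK _)) ?_
        rw [pr_one_left h1]
        exact hconj _ (hpr _ (K.zpow_mem hz _))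
  obtain ⟨f, hf, hfK⟩ := key N
  exact ⟨f, hf, fun v => hK (hfK v)⟩

end Pool.Agent.J6H54.MG
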